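import Pool.Agent.KS6_38.HG.Sgn

/-!
# Completions of partial `k`-hypertournaments

A `k`-hypertournament is given on the cliques of a graph on a linearly ordered set.  The other
`k`-sets are oriented by: first the first pair which is not an edge, then the other elements in
increasing order.  In the result every unbalanced `(k+1)`-set is a clique.
-/

set_option autoImplicit false

namespace Pool.Agent.KS6_38.HG

open Finset Function Equiv

variable {k : ℕ} {U V : Type}

/-- `(i, j)` is the first pair of `x` which is not an edge of `G`. -/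
def First (G : V → V → Prop) {n : ℕ} (x : Fin n → V) (i j : Fin n) : Prop :=
  i < j ∧ ¬ G (x i) (x j) ∧ ∀ i' j', i' < j' → ¬ G (x i') (x j') → i < i' ∨ (i = i' ∧ j ≤ j')

/-- The entries of `x` are pairwise adjacent. -/
def Clq (G : V → V → Prop) {n : ℕ} (x : Fin n → V) : Prop := ∀ i j, i ≠ j → G (x i) (x j)

theorem Clq.perm {G : V → V → Prop} {n : ℕ} {x : Fin n → V} (h : Clq G x) (σ : Perm (Fin n)) :
    Clq G (x ∘ σ) := fun i j hij => h _ _ fun h' => hij (σ.injective h')

theorem exists_first {G : V → V → Prop} (hG : ∀ u v, G u v → G v u) {n : ℕ} {x : Fin n → V}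
    (h : ¬ Clq G x) : ∃ i j, First G x i j := by
  let s : Set (Fin n × Fin n) := {p | p.1 < p.2 ∧ ¬ G (x p.1) (x p.2)}
  have hne : s.Nonempty := by
    unfold Clq at h
    push Not at h
    obtain ⟨i, j, h1, h2⟩ := h
    rcases lt_or_gt_of_ne h1 with h3 | h3
    · exact ⟨(i, j), h3, h2⟩
    · exact ⟨(j, i), h3, fun h4 => h2 (hG _ _ h4)⟩
  obtain ⟨p, hp, hmin⟩ := Set.exists_min_image s (fun p => toLex p) (Set.toFinite s) hne
  refine ⟨p.1, p.2, hp.1, hp.2, fun i' j' h1 h2 => ?_⟩
  have h3 := hmin (i', j') ⟨h1, h2⟩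
  rwa [Prod.Lex.toLex_le_toLex] at h3

theorem First.unique {G : V → V → Prop} {n : ℕ} {x : Fin n → V} {i j i' j' : Fin n}
    (h : First G x i j) (h' : First G x i' j') : i = i' ∧ j = j' := by
  have h1 := h.2.2 i' j' h'.1 h'.2.1
  have h2 := h'.2.2 i j h.1 h.2.1
  rcases h1 with h1 | ⟨h1, h3⟩ <;> rcases h2 with h2 | ⟨h2, h4⟩
  · exact absurd h1 h2.not_gt
  · exact absurd h2.symm h1.ne
  · exact absurd h1.symm h2.ne
  · exact ⟨h1, le_antisymm h3 h4⟩

theorem First.not_clq {G : V → V → Prop} {n : ℕ} {x : Fin n → V} {i j : Fin n}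
    (h : First G x i j) : ¬ Clq G x := fun h' => h.2.1 (h' _ _ h.1.ne)

/-- the values of the completion on increasing tuples -/
def cg (G : V → V → Prop) (r0 : (Fin k → V) → Prop) (x : Fin k → V) : Prop :=
  (Clq G x ∧ r0 x) ∨ ∃ i j : Fin k, First G x i j ∧ Odd ((i : ℕ) + (j : ℕ))

theorem cg_clq {G : V → V → Prop} {r0 : (Fin k → V) → Prop} {x : Fin k → V} (h : Clq G x) :
    cg G r0 x ↔ r0 x := by
  constructor
  · rintro (h1 | ⟨i, j, h1, _⟩)
    · exact h1.2
    · exact absurd h h1.not_clq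
  · exact fun h1 => Or.inl ⟨h, h1⟩

theorem cg_first {G : V → V → Prop} {r0 : (Fin k → V) → Prop} {x : Fin k → V} {i j : Fin k}
    (h : First G x i j) : cg G r0 x ↔ Odd ((i : ℕ) + (j : ℕ)) := by
  constructor
  · rintro (h1 | ⟨i', j', h1, h2⟩)
    · exact absurd h1.1 h.not_clq
    · obtain ⟨rfl, rfl⟩ := h.unique h1
      exact h2
  · exact fun h1 => Or.inr ⟨i, j, h, h1⟩

theorem val_succAbove (i : Fin (k + 1)) (m : Fin k) :
    ((i.succAbove m : Fin (k + 1)) : ℕ) = if (m : ℕ) < (i : ℕ) then (m : ℕ) else (m : ℕ) + 1 := by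
  unfold Fin.succAbove
  simp only [Fin.lt_def, Fin.val_castSucc]
  split_ifs <;> simp

theorem First.face {G : V → V → Prop} {y : Fin (k + 1) → V} {a b : Fin (k + 1)}
    (h : First G y a b) {i : Fin (k + 1)} (hia : i ≠ a) (hib : i ≠ b) :
    ∃ a' b' : Fin k, i.succAbove a' = a ∧ i.succAbove b' = b ∧
      First G (y ∘ i.succAbove) a' b' := by
  obtain ⟨a', ha⟩ := Fin.exists_succAbove_eq hia.symm
  obtain ⟨b', hb⟩ := Fin.exists_succAbove_eq hib.symm
  refine ⟨a', b', ha, hb, ?_, ?_, ?_⟩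
  · have := h.1
    rwa [← ha, ← hb, Fin.succAbove_lt_succAbove_iff] at this
  · simp only [comp_apply]
    rw [ha, hb]
    exact h.2.1
  · intro i' j' h1 h2
    have h3 := h.2.2 (i.succAbove i') (i.succAbove j') (Fin.succAbove_lt_succAbove_iff.2 h1) h2
    rw [← ha, ← hb, Fin.succAbove_lt_succAbove_iff, Fin.succAbove_le_succAbove_iff] at h3
    rcases h3 with h3 | ⟨h3, h4⟩
    · exact Or.inl h3
    · exact Or.inr ⟨Fin.succAbove_right_injective h3, h4⟩

/-- the `r`-th natural number different from `a` and `b` -/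
def wq (a b r : ℕ) : ℕ := if r < a then r else if r + 1 < b then r + 1 else r + 2

theorem face_value {G : V → V → Prop} {r0 : (Fin k → V) → Prop} {y : Fin (k + 1) → V}
    {a b : Fin (k + 1)} (h : First G y a b) {i : Fin (k + 1)} {r : ℕ}
    (hi : (i : ℕ) = wq a b r) :
    ((cg G r0 (y ∘ i.succAbove)) ↔ Even (i : ℕ)) ↔ (Odd ((a : ℕ) + (b : ℕ)) ↔ Even r) := by
  have hab : (a : ℕ) < b := h.1
  have hia : i ≠ a := by
    intro hc
    subst hc
    unfold wq at hi
    split_ifs at hi <;> omega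
  have hib : i ≠ b := by
    intro hc
    subst hc
    unfold wq at hi
    split_ifs at hi <;> omega
  obtain ⟨a', b', ha, hb, hf⟩ := h.face hia hib
  rw [cg_first hf]
  have ha2 := congrArg Fin.val ha
  have hb2 := congrArg Fin.val hb
  rw [val_succAbove] at ha2 hb2
  unfold wq at hi
  simp only [← Nat.not_even_iff_odd]
  split_ifs at hi ha2 hb2 with h1 h2 <;> try omega
  · have e1 : (a : ℕ) = a' + 1 := ha2.symm
    have e2 : (b : ℕ) = b' + 1 := hb2.symm
    rw [hi, e1, e2]
    simp only [Nat.even_add, Nat.even_add_one]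
    tauto
  · have e1 : (a : ℕ) = a' := ha2.symm
    have e2 : (b : ℕ) = b' + 1 := hb2.symm
    rw [hi, e1, e2]
    simp only [Nat.even_add, Nat.even_add_one]
    tauto
  · have e1 : (a : ℕ) = a' := ha2.symm
    have e2 : (b : ℕ) = b' := hb2.symm
    rw [hi, e1, e2]
    simp only [Nat.even_add]
    simp

/-- many faces of each kind -/
theorem count_face {a b : Fin (k + 1)} (hab : a < b) {P : Set (Fin (k + 1))} (c : ℕ) (hc : c ≤ 1)
    (hP : ∀ (i : Fin (k + 1)) (r : ℕ), (i : ℕ) = wq a b r → (Even r ↔ Even c) → i ∈ P) :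
    (k - 1) / 2 ≤ P.ncard := by
  have hab' : (a : ℕ) < b := hab
  have hb : (b : ℕ) < k + 1 := b.2
  have hlt : ∀ m : Fin ((k - 1) / 2), wq a b (2 * m + c) < k + 1 := by
    intro m
    have := m.2
    unfold wq
    split_ifs <;> omega
  let f : Fin ((k - 1) / 2) → P := fun m => ⟨⟨wq a b (2 * m + c), hlt m⟩, hP _ _ rfl (by
    rw [Nat.even_add]
    simp)⟩
  have hf : Injective f := by
    intro m m' h
    have h1 : wq a b (2 * m + c) = wq a b (2 * m' + c) := congrArg (fun z => ((z : P) : Fin (k + 1)).1) h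
    unfold wq at h1
    apply Fin.ext
    split_ifs at h1 <;> omega
  have h1 := Nat.card_le_card_of_injective f hf
  rwa [Nat.card_fin, Nat.card_coe_set_eq] at h1

/-- The completion of a partial `k`-hypertournament. -/
theorem completion [LinearOrder V] (hk : 3 ≤ k) {G : V → V → Prop} (hG : ∀ u v, G u v → G v u)
    {r0 : (Fin k → V) → Prop}
    (h0 : ∀ x, Injective x → Clq G x → ∀ σ : Perm (Fin k),
      (r0 (x ∘ σ) ↔ (r0 x ↔ Perm.sign σ = 1))) :
    HT (rOf (cg G r0)) ∧ (∀ x, Injective x → Clq G x → (rOf (cg G r0) x ↔ r0 x)) ∧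
      ∀ y : Fin (k + 1) → V, Injective y → Unbal (rOf (cg G r0)) y → Clq G y := by
  have hr := rOf_HT (cg G r0)
  refine ⟨hr, ?_, ?_⟩
  · intro x hx hc
    unfold rOf
    rw [cg_clq (hc.perm _), h0 x hx hc]
    tauto
  · intro y hy hu
    by_contra hc
    have hy' := strictMono_sort hy
    have hu' := unbal_perm hr hy (Tuple.sort y) hu
    have hc' : ¬ Clq G (y ∘ Tuple.sort y) := by
      intro h
      apply hc
      have h1 := h.perm (Tuple.sort y)⁻¹
      have h2 : (y ∘ Tuple.sort y) ∘ ((Tuple.sort y)⁻¹ : Perm (Fin (k + 1))) = y := by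
        funext i
        simp
      rwa [h2] at h1
    obtain ⟨a, b, hf⟩ := exists_first hG hc'
    have hpos : ∀ (i : Fin (k + 1)) (r : ℕ), (i : ℕ) = wq a b r →
        (i ∈ pos (rOf (cg G r0)) (y ∘ Tuple.sort y) ↔ (Odd ((a : ℕ) + (b : ℕ)) ↔ Even r)) := by
      intro i r hi
      rw [← face_value (r0 := r0) hf hi]
      show (rOf (cg G r0) _ ↔ _) ↔ _
      rw [rOf_mono (hy'.comp (Fin.strictMono_succAbove i))]
    by_cases hodd : Odd ((a : ℕ) + (b : ℕ))
    · have h1 := count_face hf.1 (P := pos (rOf (cg G r0)) (y ∘ Tuple.sort y)) 0 (by omega) (by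
        intro i r hi h
        rw [hpos i r hi]
        simpa [hodd] using h)
      have h2 := count_face hf.1 (P := (pos (rOf (cg G r0)) (y ∘ Tuple.sort y))ᶜ) 1 (by omega) (by
        intro i r hi h
        rw [Set.mem_compl_iff, hpos i r hi]
        simpa [hodd] using h)
      unfold Unbal at hu'
      omega
    · have h1 := count_face hf.1 (P := pos (rOf (cg G r0)) (y ∘ Tuple.sort y)) 1 (by omega) (by
        intro i r hi h
        rw [hpos i r hi]
        simpa [hodd] using h)
      have h2 := count_face hf.1 (P := (pos (rOf (cg G r0)) (y ∘ Tuple.sort y))ᶜ) 0 (by omega) (by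
        intro i r hi h
        rw [Set.mem_compl_iff, hpos i r hi]
        simpa [hodd] using h)
      unfold Unbal at hu'
      omega

end Pool.Agent.KS6_38.HG
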