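import Mathlib

/-!
# The finite Ramsey theorem for increasing tuples
(the proof is the one of `Pool.Agent.Helper745.FS.B3`, copied)
-/

namespace Pool.Agent.KS6_38.HG

/-- pre-homogeneous sets -/
theorem ramsey_claim (κ : Type) [Nonempty κ] (r : ℕ)
    (hR : ∀ m : ℕ, ∃ N : ℕ, ∀ (S : Finset ℕ) (col : List ℕ → κ), N ≤ S.card →
      ∃ T ⊆ S, T.card = m ∧ ∃ k : κ, ∀ l : List ℕ, l.length = r → l.Pairwise (· < ·) →
        (∀ x ∈ l, x ∈ T) → col l = k) (q : ℕ) :
    ∃ N : ℕ, ∀ (S : Finset ℕ) (col : List ℕ → κ), N ≤ S.card →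
      ∃ T ⊆ S, T.card = q ∧ ∃ c : ℕ → κ, ∀ x ∈ T, ∀ l : List ℕ, l.length = r →
        l.Pairwise (· < ·) → (∀ y ∈ l, y ∈ T ∧ x < y) → col (x :: l) = c x := by
  classical
  induction q with
  | zero =>
    refine ⟨0, fun S col _ => ⟨∅, Finset.empty_subset _, rfl, fun _ => Classical.arbitrary κ,
      fun x hx => absurd hx (Finset.notMem_empty x)⟩⟩
  | succ q ih =>
    obtain ⟨M, hM⟩ := ih
    obtain ⟨N', hN'⟩ := hR M
    refine ⟨N' + 1, fun S col hS => ?_⟩
    have hne : S.Nonempty := by
      rw [← Finset.card_pos]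
      omega
    have hx := S.min'_mem hne
    obtain ⟨T', hT'S, hT'c, k, hk⟩ := hN' (S.erase (S.min' hne))
      (fun l => col (S.min' hne :: l)) (by rw [Finset.card_erase_of_mem hx]; omega)
    obtain ⟨T, hTT', hTc, c, hc⟩ := hM T' col (by omega)
    have hlt : ∀ y ∈ T, S.min' hne < y := fun y hy =>
      S.min'_lt_of_mem_erase_min' hne (hT'S (hTT' hy))
    have hxT : S.min' hne ∉ T := fun h => lt_irrefl _ (hlt _ h)
    refine ⟨insert (S.min' hne) T, ?_, ?_, Function.update c (S.min' hne) k, ?_⟩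
    · rw [Finset.insert_subset_iff]
      exact ⟨hx, fun y hy => Finset.mem_of_mem_erase (hT'S (hTT' hy))⟩
    · rw [Finset.card_insert_of_notMem hxT, hTc]
    · intro x hxm l hl hlp hly
      have hlT : ∀ y ∈ l, y ∈ T := by
        intro y hy
        obtain ⟨h1, h2⟩ := hly y hy
        rcases Finset.mem_insert.mp h1 with h3 | h3
        · exfalso
          rcases Finset.mem_insert.mp hxm with h4 | h4
          · omega
          · have := hlt x h4
            omega
        · exact h3
      rcases Finset.mem_insert.mp hxm with h | h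
      · subst h
        rw [Function.update_self]
        exact hk l hl hlp (fun y hy => hTT' (hlT y hy))
      · have hne' : x ≠ S.min' hne := fun he => hxT (he ▸ h)
        rw [Function.update_of_ne hne']
        exact hc x h l hl hlp (fun y hy => ⟨hlT y hy, (hly y hy).2⟩)

/-- Ramsey for increasing lists of natural numbers -/
theorem ramsey_gen (κ : Type) [Fintype κ] [Nonempty κ] (r : ℕ) :
    ∀ m : ℕ, ∃ N : ℕ, ∀ (S : Finset ℕ) (col : List ℕ → κ), N ≤ S.card →
      ∃ T ⊆ S, T.card = m ∧ ∃ k : κ, ∀ l : List ℕ, l.length = r → l.Pairwise (· < ·) →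
        (∀ x ∈ l, x ∈ T) → col l = k := by
  classical
  induction r with
  | zero =>
    intro m
    refine ⟨m, fun S col hS => ?_⟩
    obtain ⟨T, hTS, hTc⟩ := Finset.exists_subset_card_eq hS
    refine ⟨T, hTS, hTc, col [], fun l hl _ _ => ?_⟩
    rw [List.length_eq_zero_iff.mp hl]
  | succ r ih =>
    intro m
    obtain ⟨N, hN⟩ := ramsey_claim κ r ih (Fintype.card κ * m)
    refine ⟨N, fun S col hS => ?_⟩
    obtain ⟨T, hTS, hTc, c, hc⟩ := hN S col hS
    have hex : ∃ k : κ, m ≤ (T.filter (fun x => c x = k)).card := by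
      by_contra hcon
      push Not at hcon
      have h1 : T.card = ∑ k : κ, (T.filter (fun x => c x = k)).card :=
        Finset.card_eq_sum_card_fiberwise (fun x _ => Finset.mem_univ _)
      have h2 : ∑ k : κ, (T.filter (fun x => c x = k)).card < ∑ _k : κ, m :=
        Finset.sum_lt_sum_of_nonempty Finset.univ_nonempty (fun k _ => hcon k)
      rw [Finset.sum_const, Finset.card_univ, smul_eq_mul, ← h1, hTc] at h2
      exact lt_irrefl _ h2
    obtain ⟨k, hk⟩ := hex
    obtain ⟨T₂, hT₂, hT₂c⟩ := Finset.exists_subset_card_eq hk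
    refine ⟨T₂, hT₂.trans ((Finset.filter_subset _ _).trans hTS), hT₂c, k, ?_⟩
    intro l hl hlp hlT
    rcases l with _ | ⟨x, l⟩
    · simp at hl
    · have hxT : x ∈ T₂ := hlT x List.mem_cons_self
      rw [List.pairwise_cons] at hlp
      have h1 := hc x (Finset.mem_filter.mp (hT₂ hxT)).1 l (by simpa using hl) hlp.2
        (fun y hy => ⟨(Finset.mem_filter.mp (hT₂ (hlT y (List.mem_cons_of_mem _ hy)))).1,
          hlp.1 y hy⟩)
      rw [h1]
      exact (Finset.mem_filter.mp (hT₂ hxT)).2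

end Pool.Agent.KS6_38.HG
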