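import Pool.Agent.KS6_38.HG.Partite
import Pool.Agent.KS6_38.HG.RamseyT

/-!
# The partite construction: the general form, Ramsey's theorem
(copied from the modules `H439_Hyper.Core`, `H439_Hyper.Steps` of the library)
-/

set_option autoImplicit false

namespace Pool.Agent.KS6_38.HG

open Finset Function

/-- the set of values of an embedding of `Fin m` -/
def img {m : ℕ} {V : Type} [LinearOrder V] (b : Fin m ↪o V) : Finset V :=
  univ.map b.toEmbedding

theorem mem_img {m : ℕ} {V : Type} [LinearOrder V] {b : Fin m ↪o V} {v : V} :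
    v ∈ img b ↔ ∃ x, b x = v := by
  simp [img]

/-- increasing embeddings with the same values are equal -/
theorem img_inj {m : ℕ} {V : Type} [LinearOrder V] {a b : Fin m ↪o V} (h : img a = img b) :
    a = b := by
  have h1 : Set.range a = Set.range b := by
    ext v
    constructor
    · rintro ⟨x, rfl⟩
      have : a x ∈ img b := h ▸ mem_img.2 ⟨x, rfl⟩
      exact mem_img.1 this
    · rintro ⟨x, rfl⟩
      have : b x ∈ img a := h ▸ mem_img.2 ⟨x, rfl⟩
      exact mem_img.1 this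
  have h2 : (a : Fin m → V) = b := by
    have ha : StrictMono a := a.strictMono
    have hb : StrictMono b := b.strictMono
    exact (StrictMono.range_inj ha hb).1 h1
  exact DFunLike.coe_injective h2

/-- The general form of the partite construction. -/
theorem general {I Idx κ : Type} [Finite I] [DecidableEq I] [Finite Idx] [Finite κ]
    (R : Idx → Finset I) (M : Idx → Finset I → Prop) (T : Finset I → Finset I → Prop)
    (A : Finset I → Prop) (J : Idx → Finset I → Prop)
    (hM : ∀ b t, M b t → t.Nonempty)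
    (hJ : ∀ b α, J b α → α ⊆ R b ∧ A α ∧ ∀ t ⊆ α, (M b t ↔ T α t))
    (hR : ∀ χ : Finset I → κ, ∃ b c, ∀ α, J b α → χ α = c) :
    ∃ Q : PS I,
      (∀ χ : Finset (I × Q.X) → κ, ∃ (b : Idx) (s : I → Q.X),
        (∀ t ⊆ R b, (Q.S t s ↔ M b t)) ∧ ∃ c, ∀ α, J b α → χ (gr α s) = c) ∧
      (∀ D : Finset I → Prop, (∀ α, A α → ∀ t ⊆ α, D t) → (∀ b, ∀ t ⊆ R b, D t) →
        ∀ t s, 2 ≤ t.card → PM Q t s → D t) := by
  classical
  let P : PS I :=
    { X := Idx
      fin := inferInstance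
      S := fun t s => ∃ b, t ⊆ R b ∧ (∀ v ∈ t, s v = b) ∧ M b t
      loc := by
        rintro t s s' h ⟨b, h1, h2, h3⟩
        exact ⟨b, h1, fun v hv => (h v hv).symm.trans (h2 v hv), h3⟩ }
  have hPb : ∀ (b : Idx) (t : Finset I), t ⊆ R b → (P.S t (fun _ => b) ↔ M b t) := by
    intro b t ht
    constructor
    · rintro ⟨b', h1, h2, h3⟩
      obtain ⟨v, hv⟩ := hM b' t h3
      have h4 : b = b' := h2 v hv
      rw [h4]
      exact h3
    · intro h
      exact ⟨b, ht, fun _ _ => rfl, h⟩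
  have := Fintype.ofFinite I
  obtain ⟨Q, hQ, hD⟩ := iter κ ((univ.filter fun α => A α).toList.map fun α => (α, T α)) P
  refine ⟨Q, fun χ => ?_, fun D hA hB => hD D ?_ ?_⟩
  · obtain ⟨g, hg, hc⟩ := hQ χ
    let χ₀ : Finset I → κ := fun α =>
      if h : ∃ s, Copy P α (T α) s then χ (gr α fun v => g v (h.choose v)) else χ ∅
    obtain ⟨b, c, hb⟩ := hR χ₀
    refine ⟨b, fun v => g v b, fun t ht => (hg t _).trans (hPb b t ht), c, fun α hα => ?_⟩
    obtain ⟨h1, h2, h3⟩ := hJ b α hα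
    have h4 : Copy P α (T α) (fun _ => b) := fun t ht =>
      (hPb b t (ht.trans h1)).trans (h3 t ht)
    have h5 : ∃ s, Copy P α (T α) s := ⟨_, h4⟩
    obtain ⟨c', hc'⟩ := hc (α, T α) (List.mem_map.2 ⟨α, by simpa using h2, rfl⟩)
    have h6 : χ₀ α = c' := by
      simp only [χ₀, dif_pos h5]
      exact hc' _ h5.choose_spec
    rw [← hb α hα, h6]
    exact hc' _ h4
  · intro p hp t ht
    obtain ⟨α, hα, rfl⟩ := List.mem_map.1 hp
    exact hA α (by simpa using hα) t ht
  · intro t s ht hs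
    obtain ⟨u0, hu0, v0, hv0, huv⟩ := Finset.one_lt_card.1 (by omega : 1 < t.card)
    refine hB (s u0) t fun v hv => ?_
    by_cases h : u0 = v
    · subst h
      obtain ⟨b, h1, h2, _⟩ := hs u0 hu0 v0 hv0 huv
      rw [h2 u0 (by simp)]
      exact h1 (by simp)
    · obtain ⟨b, h1, h2, _⟩ := hs u0 hu0 v hv h
      rw [h2 u0 (by simp)]
      exact h1 (by simp)

/-- the increasing embedding of `Fin n` in the lexicographic product -/
noncomputable def lexEmb {n : ℕ} {I X : Type} [LinearOrder I] [LinearOrder X] (b : Fin n ↪o I)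
    (s : I → X) : Fin n ↪o Lex (I × X) :=
  OrderEmbedding.ofStrictMono (fun x => toLex (b x, s (b x))) fun x y hxy => by
    rw [Prod.Lex.toLex_lt_toLex]
    exact Or.inl (b.strictMono hxy)

theorem lexEmb_apply {n : ℕ} {I X : Type} [LinearOrder I] [LinearOrder X] (b : Fin n ↪o I)
    (s : I → X) (x : Fin n) : lexEmb b s x = toLex (b x, s (b x)) := rfl

theorem img_lexEmb {m n : ℕ} {I X : Type} [LinearOrder I] [LinearOrder X] (a : Fin m ↪o Fin n)
    (b : Fin n ↪o I) (s : I → X) :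
    img (a.trans (lexEmb b s)) = (gr (img (a.trans b)) s).map toLex.toEmbedding := by
  ext z
  rw [mem_img, Finset.mem_map]
  constructor
  · rintro ⟨x, rfl⟩
    exact ⟨(b (a x), s (b (a x))), mem_gr.2 ⟨mem_img.2 ⟨x, rfl⟩, rfl⟩, rfl⟩
  · rintro ⟨w, hw, rfl⟩
    obtain ⟨h1, h2⟩ := mem_gr.1 hw
    obtain ⟨x, hx⟩ := mem_img.1 h1
    refine ⟨x, ?_⟩
    have hx' : b (a x) = w.1 := hx
    show toLex (b (a x), s (b (a x))) = toLex w
    rw [hx', ← h2]

/-- Ramsey's theorem. -/
theorem ramsey0 (m n : ℕ) (κ : Type) [Finite κ] [Nonempty κ] :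
    ∃ N : ℕ, ∀ χ : Finset (Fin N) → κ, ∃ b : Fin n ↪o Fin N,
      ∃ c, ∀ a : Fin m ↪o Fin n, χ (img (a.trans b)) = c := by
  classical
  have := Fintype.ofFinite κ
  obtain ⟨N, hN⟩ := ramsey_gen κ m n
  refine ⟨N, fun χ => ?_⟩
  obtain ⟨T, hT, hTc, k, hk⟩ := hN (range N)
    (fun l => χ (univ.filter fun x : Fin N => (x : ℕ) ∈ l)) (by simp)
  have hlt : ∀ x ∈ T, x < N := fun x hx => mem_range.1 (hT hx)
  let b : Fin n ↪o Fin N := OrderEmbedding.ofStrictMono
    (fun x => ⟨T.orderEmbOfFin hTc x, hlt _ (T.orderEmbOfFin_mem hTc x)⟩) (by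
      intro x y hxy
      have := (T.orderEmbOfFin hTc).strictMono hxy
      exact this)
  refine ⟨b, k, fun a => ?_⟩
  rw [← hk (List.ofFn fun i => (T.orderEmbOfFin hTc (a i) : ℕ)) (by simp) ?_ ?_]
  · congr 1
    ext x
    rw [mem_img, Finset.mem_filter, List.mem_ofFn]
    constructor
    · rintro ⟨i, rfl⟩
      exact ⟨mem_univ _, i, rfl⟩
    · rintro ⟨_, i, hi⟩
      exact ⟨i, Fin.ext hi⟩
  · rw [List.pairwise_ofFn]
    intro i j hij
    exact (T.orderEmbOfFin hTc).strictMono (a.strictMono hij)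
  · intro x hx
    obtain ⟨i, rfl⟩ := (List.mem_ofFn' _ _).1 hx
    exact T.orderEmbOfFin_mem hTc _

end Pool.Agent.KS6_38.HG
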