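import Pool.Agent.KS6_38.HG.Sgn

/-!
# `k`-hypertournaments omitting a family and finite-language Ramsey expansions: the definitions

All structures are structures of Mathlib's first-order languages.
-/

set_option autoImplicit false

namespace Pool.Agent.KS6_38.HG

open FirstOrder Language Structure CategoryTheory

/-! ### The languages -/

/-- The relation symbols of the language `{R}`: one `k`-ary symbol. -/
inductive Sym (k : ℕ) : ℕ → Type
  | R : Sym k k

/-- The relational language `{R}` with one `k`-ary relation symbol. -/
def LR (k : ℕ) : FirstOrder.Language.{0, 0} := ⟨fun _ => Empty, Sym k⟩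

/-- The relation symbols of the language `{R, <}`: a `k`-ary and a binary symbol. -/
inductive SymLt (k : ℕ) : ℕ → Type
  | R : SymLt k k
  | lt : SymLt k 2

/-- The relational language `{R, <}` with a `k`-ary and a binary relation symbol. -/
def LRlt (k : ℕ) : FirstOrder.Language.{0, 0} := ⟨fun _ => Empty, SymLt k⟩

/-- The inclusion of the language `{R}` in the language `{R, <}`. -/
noncomputable def incl (k : ℕ) : LR k →ᴸ LRlt k where
  onFunction := fun _ f => f
  onRelation := fun _ r => Sym.rec (motive := fun n _ => SymLt k n) SymLt.R r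

/-- The expansion of the `{R}`-structure `M` by the binary relation `lt`. -/
@[instance_reducible]
def expandBy (k : ℕ) (M : Type) [(LR k).Structure M] (lt : M → M → Prop) :
    (LRlt k).Structure M where
  funMap := fun f => f.elim
  RelMap := fun r => SymLt.rec (motive := fun n _ => (Fin n → M) → Prop)
    (fun x => RelMap (L := LR k) Sym.R x) (fun x => lt (x 0) (x 1)) r

/-! ### `k`-hypertournaments -/

/-- `R(x)` holds in the `{R}`-structure `M`. -/
def HoldsR (k : ℕ) (M : Type) [(LR k).Structure M] (x : Fin k → M) : Prop :=
  RelMap (L := LR k) Sym.R x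

/-- `M` is a `k`-hypertournament (see `HT`): `R` holds only on tuples of distinct elements, and if
the elements of `x` are distinct, then `R(x ∘ σ)` is equivalent to `R(x)` for the even
permutations `σ` and to the negation of `R(x)` for the odd ones.  So on each set of `k` elements
`R` holds exactly on one of the two parity classes of orderings. -/
def IsHypertournament (k : ℕ) (M : Type) [(LR k).Structure M] : Prop := HT (HoldsR k M)

/-- The vertex set `{0, ..., k}` of the `k`-hypertournament `T k P`. -/
def T (k : ℕ) (_ : Set (Fin (k + 1))) : Type := Fin (k + 1)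

/-- The `k`-hypertournament `T k P` with `k + 1` vertices, `P` a set of vertices: if
`σ 0, σ 1, ..., σ k` is an ordering of the vertices, then `R(σ 1, ..., σ k)` holds if and only if
`σ` is even and `σ 0 ∈ P`, or `σ` is odd and `σ 0 ∉ P`. -/
instance instT (k : ℕ) (P : Set (Fin (k + 1))) : (LR k).Structure (T k P) where
  funMap := fun f => f.elim
  RelMap := fun r => Sym.rec (motive := fun n _ => (Fin n → Fin (k + 1)) → Prop)
    (fun x => ∃ σ : Equiv.Perm (Fin (k + 1)), (∀ i, x i = σ i.succ) ∧
      (Equiv.Perm.sign σ = 1 ↔ σ 0 ∈ P)) r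

/-- `H_{k+1} = T k univ`: its `R`-tuples are the even orderings of the `k + 1` vertices with the
first vertex removed. -/
abbrev H (k : ℕ) : Type := T k Set.univ

/-- `𝓕` is a family of finite structures with at least two points, such that in each member any
two points belong to an unbalanced `(k+1)`-tuple. -/
def PairwiseUnbalanced (k : ℕ) (𝓕 : Set (Bundled.{0} (LR k).Structure)) : Prop :=
  ∀ F ∈ 𝓕, Finite F ∧ Nontrivial F ∧ ∀ u v : F, u ≠ v →
    ∃ y : Fin (k + 1) → F, Function.Injective y ∧ Unbal (HoldsR k F) y ∧ u ∈ Set.range y ∧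
      v ∈ Set.range y

/-- The class of all finite `k`-hypertournaments in which no member of `𝓕` embeds. -/
def Forb (k : ℕ) (𝓕 : Set (Bundled.{0} (LR k).Structure)) : Set (Bundled.{0} (LR k).Structure) :=
  {M | Finite M ∧ IsHypertournament k M ∧ ∀ F ∈ 𝓕, IsEmpty (F ↪[LR k] M)}

/-- The class of all structures `(A, R, <)` with `A` in `Forb k 𝓕` and `<` any strict linear order
on `A`. -/
def OrderedForb (k : ℕ) (𝓕 : Set (Bundled.{0} (LR k).Structure)) :
    Set (Bundled.{0} (LRlt k).Structure) :=
  {A | ∃ (E : (LR k).Structure A) (lt : A → A → Prop), (⟨A, E⟩ : Bundled.{0} (LR k).Structure) ∈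
    Forb k 𝓕 ∧ IsStrictTotalOrder A lt ∧ A.str = expandBy k A lt}

/-! ### The problem: `k = 3`, `𝓕 = {H_4}` -/

/-- `M` is a 3-hypertournament: `R` holds only on triples of distinct elements, and on each set
`{x, y, z}` of three elements it holds exactly on the three cyclic shifts of one of the two cyclic
orderings `(x, y, z)`, `(x, z, y)`. -/
structure Is3Hypertournament (M : Type) [(LR 3).Structure M] : Prop where
  distinct : ∀ x y z : M, HoldsR 3 M ![x, y, z] → x ≠ y ∧ y ≠ z ∧ x ≠ z
  shift : ∀ x y z : M, HoldsR 3 M ![x, y, z] → HoldsR 3 M ![y, z, x]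
  orientation : ∀ x y z : M, x ≠ y → y ≠ z → x ≠ z →
    (HoldsR 3 M ![x, y, z] ↔ ¬ HoldsR 3 M ![x, z, y])

/-- The vertex set `{v_0, v_1, v_2, v_3}` of `H_4`. -/
def H4 : Type := Fin 4

/-- The triples `(v_0, v_1, v_3)`, `(v_1, v_2, v_3)`, `(v_2, v_0, v_3)`, `(v_0, v_2, v_1)`. -/
def H4Triples : Finset (Fin 4 × Fin 4 × Fin 4) := {(0, 1, 3), (1, 2, 3), (2, 0, 3), (0, 2, 1)}

/-- `(x, y, z)` is a cyclic shift of one of the four triples. -/
def H4Rel (x y z : Fin 4) : Prop :=
  (x, y, z) ∈ H4Triples ∨ (y, z, x) ∈ H4Triples ∨ (z, x, y) ∈ H4Triples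

/-- The 3-hypertournament `H_4`: its `R`-triples are the four triples `H4Triples` and their cyclic
shifts. -/
instance instH4 : (LR 3).Structure H4 where
  funMap := fun f => f.elim
  RelMap := fun r => Sym.rec (motive := fun n _ => (Fin n → Fin 4) → Prop)
    (fun x => H4Rel (x 0) (x 1) (x 2)) r

/-- The class `𝒲` of all finite `H_4`-free 3-hypertournaments. -/
def W : Set (Bundled.{0} (LR 3).Structure) :=
  {M | Finite M ∧ Is3Hypertournament M ∧ IsEmpty (H4 ↪[LR 3] M)}

instance instCountable (k : ℕ) : Countable (Σ l, (LR k).Functions l) :=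
  have : IsEmpty (Σ l, (LR k).Functions l) := ⟨fun x => Empty.elim x.2⟩
  inferInstance

/-! ### Ramsey expansions -/

/-- The Ramsey property of a class `K` of structures: for all `A, B ∈ K` and `k ≥ 1` there is
`C ∈ K` such that for every colouring of the substructures of `C` isomorphic to `A` with `k`
colours there is a substructure `B'` of `C` isomorphic to `B` all of whose substructures isomorphic
to `A` receive the same colour. -/
def RamseyProperty {L : FirstOrder.Language.{0, 0}} (K : Set (Bundled.{0} L.Structure)) : Prop :=
  ∀ A ∈ K, ∀ B ∈ K, ∀ k : ℕ, 1 ≤ k → ∃ C ∈ K,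
    ∀ χ : {A' : L.Substructure C // Nonempty (A ≃[L] A')} → Fin k,
      ∃ B' : L.Substructure C, Nonempty (B ≃[L] B') ∧
        ∀ A₁ A₂ : {A' : L.Substructure C // Nonempty (A ≃[L] A')},
          A₁.1 ≤ B' → A₂.1 ≤ B' → χ A₁ = χ A₂

/-- The `L'`-structure `E` on `M` is a finite-language Ramsey expansion of the `L`-structure on
`M`, where `φ` is the inclusion of `L` in `L'`: `L'` is a finite relational language containing
`L`, the structure `E` is an expansion of the `L`-structure, it is ultrahomogeneous and its age
(the class of all finite structures which embed into it) has the Ramsey property. -/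
structure IsFiniteLanguageRamseyExpansion {L L' : FirstOrder.Language.{0, 0}} (φ : L →ᴸ L')
    (M : Type) [L.Structure M] (E : L'.Structure M) : Prop where
  relational : L'.IsRelational
  finite : Finite (Σ n, L'.Relations n)
  injective : φ.Injective
  expansion : φ.IsExpansionOn M
  ultrahomogeneous : L'.IsUltrahomogeneous M
  ramsey : RamseyProperty (L'.age M)

/-- The expansion property of the class `K` of finite `{R}`-structures for all linear orders (also
called ordering property): for every `A ∈ K` there is `B ∈ K` such that, whatever linear orders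
are chosen on `A` and on `B`, the ordered `A` embeds in the ordered `B`. -/
def ExpansionProperty (k : ℕ) (K : Set (Bundled.{0} (LR k).Structure)) : Prop :=
  ∀ A ∈ K, ∃ B ∈ K, ∀ (ltA : A → A → Prop) (ltB : B → B → Prop), IsStrictTotalOrder A ltA →
    IsStrictTotalOrder B ltB →
      Nonempty (@Language.Embedding (LRlt k) A B (expandBy k A ltA) (expandBy k B ltB))

end Pool.Agent.KS6_38.HG
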