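import Pool.Agent.KS6_38.HG.Defs

/-!
# The `k`-hypertournaments with `k + 1` vertices
-/

set_option autoImplicit false

namespace Pool.Agent.KS6_38.HG

open FirstOrder Language Structure Function Equiv

variable {k : ℕ}

theorem exists_ordering {x : Fin k → Fin (k + 1)} (hx : Injective x) :
    ∃ σ : Perm (Fin (k + 1)), ∀ i, x i = σ i.succ := by
  obtain ⟨m, hm⟩ : ∃ m, m ∉ Set.range x := by
    by_contra h
    push Not at h
    have h1 : Surjective x := fun m => h m
    have h2 := Fintype.card_le_of_surjective x h1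
    simp at h2
  have hinj : Injective (Fin.cons m x : Fin (k + 1) → Fin (k + 1)) := by
    rw [Fin.cons_injective_iff]
    exact ⟨hm, hx⟩
  have hbij : Bijective (Fin.cons m x : Fin (k + 1) → Fin (k + 1)) :=
    Finite.injective_iff_bijective.1 hinj
  refine ⟨Equiv.ofBijective _ hbij, fun i => ?_⟩
  rw [Equiv.ofBijective_apply]
  rfl

theorem ordering_unique {σ τ : Perm (Fin (k + 1))} (h : ∀ i : Fin k, σ i.succ = τ i.succ) :
    σ = τ := by
  have h1 : ∀ i : Fin k, (τ⁻¹ * σ) i.succ = i.succ := by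
    intro i
    rw [Perm.mul_apply, h]
    simp
  have h0 : (τ⁻¹ * σ) 0 = 0 := by
    by_contra hne
    obtain ⟨i, hi⟩ := Fin.exists_succ_eq.2 hne
    have h2 := h1 i
    rw [hi] at h2
    exact hne ((τ⁻¹ * σ).injective h2)
  have h3 : τ⁻¹ * σ = 1 := by
    ext j
    refine Fin.cases ?_ (fun i => ?_) j
    · rw [h0]
      rfl
    · rw [h1]
      rfl
  rw [← mul_one τ, ← h3, mul_inv_cancel_left]

theorem holdsR_T (P : Set (Fin (k + 1))) (x : Fin k → Fin (k + 1)) :
    HoldsR k (T k P) x ↔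
      ∃ σ : Perm (Fin (k + 1)), (∀ i, x i = σ i.succ) ∧ (Perm.sign σ = 1 ↔ σ 0 ∈ P) := Iff.rfl

theorem holdsR_T' (P : Set (Fin (k + 1))) (σ : Perm (Fin (k + 1))) {x : Fin k → Fin (k + 1)}
    (hx : ∀ i, x i = σ i.succ) : HoldsR k (T k P) x ↔ (Perm.sign σ = 1 ↔ σ 0 ∈ P) := by
  rw [holdsR_T]
  constructor
  · rintro ⟨τ, h1, h2⟩
    rw [ordering_unique fun i => (hx i).symm.trans (h1 i)]
    exact h2
  · exact fun h => ⟨σ, hx, h⟩

/-- `T k P` is a `k`-hypertournament. -/
theorem T_ht (P : Set (Fin (k + 1))) : IsHypertournament k (T k P) where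
  inj x hx := by
    obtain ⟨σ, h1, -⟩ := (holdsR_T P x).1 hx
    intro i j hij
    rw [h1, h1] at hij
    exact Fin.succ_injective _ (σ.injective hij)
  perm x hx τ := by
    obtain ⟨σ, h1⟩ := exists_ordering (x := x) hx
    have h3 : ∀ i, (x ∘ τ) i = (σ * Perm.decomposeFin.symm (0, τ)) i.succ := by
      intro i
      rw [Perm.mul_apply, Perm.decomposeFin_symm_apply_succ, Equiv.swap_self, Equiv.refl_apply]
      exact h1 (τ i)
    refine (holdsR_T' P (σ * Perm.decomposeFin.symm (0, τ)) h3).trans ?_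
    refine Iff.trans ?_ (iff_congr (holdsR_T' P σ h1) Iff.rfl).symm
    have h2 : (σ * Perm.decomposeFin.symm (0, τ)) 0 = σ 0 := by
      rw [Perm.mul_apply, Perm.decomposeFin_symm_apply_zero]
    rw [h2, Perm.sign_mul, Perm.decomposeFin.symm_sign]
    rcases sign_eq _ σ with h | h <;> rcases sign_eq _ τ with h' | h' <;> simp [h, h']

theorem pos_T (P : Set (Fin (k + 1))) : pos (HoldsR k (T k P)) (fun i => i) = P := by
  ext i
  show (HoldsR k (T k P) (fun m => i.succAbove m) ↔ Even (i : ℕ)) ↔ i ∈ P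
  rw [holdsR_T' P (i.cycleRange⁻¹) (fun m => (Fin.cycleRange_symm_succ i m).symm)]
  have h1 : (i.cycleRange⁻¹ : Perm (Fin (k + 1))) 0 = i := Fin.cycleRange_symm_zero i
  rw [h1, Perm.sign_inv, Fin.sign_cycleRange, pow_sign]
  tauto

/-- Families of hypertournaments `T k P` with `P` small or cosmall are pairwise unbalanced. -/
theorem pairwiseUnbalanced_T (hk : 3 ≤ k) (𝒬 : Set (Set (Fin (k + 1))))
    (h : ∀ P ∈ 𝒬, 2 * P.ncard + 3 ≤ k ∨ 2 * Pᶜ.ncard + 3 ≤ k) :
    PairwiseUnbalanced k {F | ∃ P ∈ 𝒬, F = (⟨T k P, instT k P⟩ : CategoryTheory.Bundled.{0} (LR k).Structure)} := by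
  rintro _ ⟨P, hP, rfl⟩
  refine ⟨inferInstanceAs (Finite (Fin (k + 1))), ?_, fun u v _ => ⟨fun i => i, fun _ _ h => h, ?_,
    ⟨u, rfl⟩, ⟨v, rfl⟩⟩⟩
  · have : Nontrivial (Fin (k + 1)) := Fin.nontrivial_iff_two_le.2 (by omega)
    exact this
  · show Unbal (HoldsR k (T k P)) fun i => i
    unfold Unbal
    rw [pos_T]
    exact h P hP

/-- `{H_{k+1}}` is pairwise unbalanced. -/
theorem pairwiseUnbalanced_H (hk : 3 ≤ k) : PairwiseUnbalanced k {(⟨H k, instT k Set.univ⟩ : CategoryTheory.Bundled.{0} (LR k).Structure)} := by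
  have h1 := pairwiseUnbalanced_T hk {Set.univ} (by
    rintro P rfl
    right
    simpa using hk)
  have h2 : {F | ∃ P ∈ ({Set.univ} : Set (Set (Fin (k + 1)))), F = (⟨T k P, instT k P⟩ : CategoryTheory.Bundled.{0} (LR k).Structure)} =
      {(⟨H k, instT k Set.univ⟩ : CategoryTheory.Bundled.{0} (LR k).Structure)} := by
    ext F
    simp
  rwa [h2] at h1

instance (x y z : Fin 4) : Decidable (H4Rel x y z) := by
  unfold H4Rel
  infer_instance

theorem H4_iff (x y z : Fin 4) : HoldsR 3 (H 3) ![x, y, z] ↔ H4Rel x y z := by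
  have key : ∀ x y z : Fin 4, (∃ σ : Perm (Fin 4), (∀ i : Fin 3, (![x, y, z] : Fin 3 → Fin 4) i =
      σ i.succ) ∧ (Perm.sign σ = 1)) ↔ H4Rel x y z := by decide +kernel
  rw [← key]
  refine (holdsR_T (k := 3) Set.univ ![x, y, z]).trans ?_
  simp

theorem vec3 {α : Type} (x : Fin 3 → α) : x = ![x 0, x 1, x 2] := by
  funext i
  fin_cases i <;> rfl

/-- For `k = 3` the axioms are those of 3-hypertournaments. -/
theorem ht_three {V : Type} (r : (Fin 3 → V) → Prop) : HT r ↔
    (∀ x y z, r ![x, y, z] → x ≠ y ∧ y ≠ z ∧ x ≠ z) ∧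
    (∀ x y z, r ![x, y, z] → r ![y, z, x]) ∧
    ∀ x y z, x ≠ y → y ≠ z → x ≠ z → (r ![x, y, z] ↔ ¬ r ![x, z, y]) := by
  constructor
  · intro h
    refine ⟨fun x y z h1 => ?_, fun x y z h1 => ?_, fun x y z hxy hyz hxz => ?_⟩
    · have h2 := h.inj _ h1
      exact ⟨fun h3 => absurd (h2 (a₁ := 0) (a₂ := 1) h3) (by decide),
        fun h3 => absurd (h2 (a₁ := 1) (a₂ := 2) h3) (by decide),
        fun h3 => absurd (h2 (a₁ := 0) (a₂ := 2) h3) (by decide)⟩
    · have h2 := h.perm _ (h.inj _ h1) (finRotate 3)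
      have h3 : Perm.sign (finRotate 3) = 1 := by decide
      have h4 : (![x, y, z] ∘ finRotate 3) = ![y, z, x] := by
        funext i
        fin_cases i <;> rfl
      rw [h3, h4] at h2
      simpa using h2.2 (by simpa using h1)
    · have hinj : Injective ![x, y, z] := by
        intro i j hij
        fin_cases i <;> fin_cases j <;> first
          | rfl
          | exact absurd hij hxy
          | exact absurd hij hxy.symm
          | exact absurd hij hyz
          | exact absurd hij hyz.symm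
          | exact absurd hij hxz
          | exact absurd hij hxz.symm
      have h2 := h.perm _ hinj (Equiv.swap 1 2)
      have h3 : Perm.sign (Equiv.swap (1 : Fin 3) 2) = -1 := by decide
      have h4 : (![x, y, z] ∘ Equiv.swap (1 : Fin 3) 2) = ![x, z, y] := by
        funext i
        fin_cases i <;> rfl
      rw [h3, h4] at h2
      simp only [neg_one_ne_one, iff_false] at h2
      rw [h2, not_not]
  · rintro ⟨h1, h2, h3⟩
    have hcyc : ∀ x y z, r ![x, y, z] ↔ r ![y, z, x] := fun x y z =>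
      ⟨h2 x y z, fun h => h2 _ _ _ (h2 _ _ _ h)⟩
    refine ⟨fun x hx => ?_, fun x hx σ => ?_⟩
    · rw [vec3 x] at hx
      obtain ⟨a, b, c⟩ := h1 _ _ _ hx
      intro i j hij
      fin_cases i <;> fin_cases j <;> first
        | rfl
        | exact absurd hij a
        | exact absurd hij a.symm
        | exact absurd hij b
        | exact absurd hij b.symm
        | exact absurd hij c
        | exact absurd hij c.symm
    · have n01 : x 0 ≠ x 1 := fun h => absurd (hx h) (by decide)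
      have n12 : x 1 ≠ x 2 := fun h => absurd (hx h) (by decide)
      have n02 : x 0 ≠ x 2 := fun h => absurd (hx h) (by decide)
      have hall : ∀ σ : Perm (Fin 3),
          (σ 0 = 0 ∧ σ 1 = 1 ∧ σ 2 = 2 ∧ Perm.sign σ = 1) ∨
          (σ 0 = 1 ∧ σ 1 = 2 ∧ σ 2 = 0 ∧ Perm.sign σ = 1) ∨
          (σ 0 = 2 ∧ σ 1 = 0 ∧ σ 2 = 1 ∧ Perm.sign σ = 1) ∨
          (σ 0 = 0 ∧ σ 1 = 2 ∧ σ 2 = 1 ∧ Perm.sign σ = -1) ∨
          (σ 0 = 2 ∧ σ 1 = 1 ∧ σ 2 = 0 ∧ Perm.sign σ = -1) ∨
          (σ 0 = 1 ∧ σ 1 = 0 ∧ σ 2 = 2 ∧ Perm.sign σ = -1) := by decide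
      obtain ⟨u, hu⟩ : ∃ u, u = x 0 := ⟨_, rfl⟩
      obtain ⟨v, hv⟩ : ∃ v, v = x 1 := ⟨_, rfl⟩
      obtain ⟨w, hw⟩ : ∃ w, w = x 2 := ⟨_, rfl⟩
      have hx3 : x = ![u, v, w] := by
        rw [hu, hv, hw]
        exact vec3 x
      rw [← hu, ← hv] at n01
      rw [← hv, ← hw] at n12
      rw [← hu, ← hw] at n02
      have e := h3 _ _ _ n01 n12 n02
      rw [hx3]
      rcases hall σ with ⟨a, b, c, d⟩ | ⟨a, b, c, d⟩ | ⟨a, b, c, d⟩ | ⟨a, b, c, d⟩ |
        ⟨a, b, c, d⟩ | ⟨a, b, c, d⟩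
      · have h5 : (![u, v, w] ∘ σ) = ![u, v, w] := by
          rw [vec3 (![u, v, w] ∘ σ)]
          simp only [comp_apply, a, b, c]
          rfl
        rw [h5, d]
        simp
      · have h5 : (![u, v, w] ∘ σ) = ![v, w, u] := by
          rw [vec3 (![u, v, w] ∘ σ)]
          simp only [comp_apply, a, b, c]
          rfl
        rw [h5, d, ← hcyc u]
        simp
      · have h5 : (![u, v, w] ∘ σ) = ![w, u, v] := by
          rw [vec3 (![u, v, w] ∘ σ)]
          simp only [comp_apply, a, b, c]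
          rfl
        rw [h5, d, hcyc w]
        simp
      · have h5 : (![u, v, w] ∘ σ) = ![u, w, v] := by
          rw [vec3 (![u, v, w] ∘ σ)]
          simp only [comp_apply, a, b, c]
          rfl
        rw [h5, d, e]
        simp
      · have h5 : (![u, v, w] ∘ σ) = ![w, v, u] := by
          rw [vec3 (![u, v, w] ∘ σ)]
          simp only [comp_apply, a, b, c]
          rfl
        rw [h5, d, hcyc w, hcyc v, e]
        simp
      · have h5 : (![u, v, w] ∘ σ) = ![v, u, w] := by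
          rw [vec3 (![u, v, w] ∘ σ)]
          simp only [comp_apply, a, b, c]
          rfl
        rw [h5, d, hcyc v, e]
        simp

theorem inst_eq : instT 3 Set.univ = (instH4 : (LR 3).Structure (Fin 4)) := by
  ext n f x
  · exact Empty.elim f
  · have hx := vec3 (α := Fin 4)
    match n, f, x with
    | _, Sym.R, x =>
      exact (iff_of_eq (congrArg (fun z : Fin 3 → Fin 4 => HoldsR 3 (H 3) z) (hx x))).trans
        (H4_iff (x 0) (x 1) (x 2))

/-- the class of the problem -/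
theorem forb_eq : Forb 3 {(⟨H 3, instT 3 Set.univ⟩ : CategoryTheory.Bundled.{0} (LR 3).Structure)} =
    W := by
  ext M
  have h1 : IsHypertournament 3 M ↔ Is3Hypertournament M :=
    (ht_three _).trans ⟨fun h => ⟨h.1, h.2.1, h.2.2⟩, fun h => ⟨h.1, h.2, h.3⟩⟩
  have h2 : (∀ F ∈ ({⟨H 3, instT 3 Set.univ⟩} : Set (CategoryTheory.Bundled.{0} (LR 3).Structure)),
      IsEmpty (F ↪[LR 3] M)) ↔ IsEmpty (@Language.Embedding (LR 3) (Fin 4) M (instT 3 Set.univ) _) := by
    simp only [Set.mem_singleton_iff, forall_eq]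
    exact Iff.rfl
  show (Finite M ∧ IsHypertournament 3 M ∧ _) ↔ (Finite M ∧ Is3Hypertournament M ∧ _)
  rw [h1, h2, inst_eq]
  exact Iff.rfl

end Pool.Agent.KS6_38.HG
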