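import Pool.Agent.KS6_38.HG.Main
import Pool.Agent.KS6_38.HG.Types

/-!
# The expansion property and the age of the expansion
-/

set_option autoImplicit false

namespace Pool.Agent.KS6_38.HG

open FirstOrder Language Structure Function Equiv

variable {k : ℕ}

/-- the axioms of strict linear orders -/
structure STO {A : Type} (lt : A → A → Prop) : Prop where
  irr : ∀ x, ¬ lt x x
  tr : ∀ x y z, lt x y → lt y z → lt x z
  tri : ∀ x y, x ≠ y → lt x y ∨ lt y x

theorem sto_of {A : Type} {lt : A → A → Prop} (h : IsStrictTotalOrder A lt) : STO lt where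
  irr := h.irrefl
  tr := h.trans
  tri x y hxy := by
    by_contra hc
    push Not at hc
    exact hxy (h.trichotomous x y hc.1 hc.2)

theorem of_sto {A : Type} {lt : A → A → Prop} (h : STO lt) : IsStrictTotalOrder A lt :=
  { trichotomous := fun x y h1 h2 => by
      by_contra hne
      rcases h.tri x y hne with h | h
      · exact h1 h
      · exact h2 h
    irrefl := h.irr
    trans := h.tr }

theorem STO.flip {A : Type} {lt : A → A → Prop} (h : STO lt) : STO fun x y => lt y x where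
  irr := h.irr
  tr _ _ _ h1 h2 := h.tr _ _ _ h2 h1
  tri x y hxy := (h.tri x y hxy).symm

/-- The expansion property. -/
theorem expansion_aux (hk : 3 ≤ k) {𝓕 : Fam k} (h𝓕 : Good 𝓕) {A : Type} [Finite A]
    {q : (Fin k → A) → Prop} (hq : HT q) (fq : Free 𝓕 q) :
    ∃ (V : Type) (_ : Finite V) (r : (Fin k → V) → Prop), HT r ∧ Free 𝓕 r ∧
      ∀ (ltA : A → A → Prop) (ltV : V → V → Prop), STO ltA → STO ltV →
        ∃ e : A → V, Emb q r e ∧ ∀ x y, (ltV (e x) (e y) ↔ ltA x y) := by
  classical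
  obtain ⟨s, hs, hep⟩ := exists_generic hk h𝓕
  -- all orderings of `A` in the generic structure
  have h1 : ∀ lt : {lt : A → A → Prop // STO lt}, ∃ h : A → ℕ,
      PE True ⟨q, lt.1⟩ s Set.univ h := fun lt =>
    exists_embed (by omega : 0 < k) hs hep
      ⟨hq, fq, fun _ => lt.2.irr, fun _ => lt.2.tr, fun _ => lt.2.tri⟩
  choose h hh using h1
  have hfin : (⋃ lt, Set.range (h lt)).Finite := Set.finite_iUnion fun lt => Set.finite_range _
  have hWfin : Finite {n : ℕ // n ∈ ⋃ lt, Set.range (h lt)} := hfin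
  obtain ⟨n, eX, heX⟩ := exists_enum
    (hs.comap (Subtype.val_injective (p := fun n : ℕ => n ∈ ⋃ lt, Set.range (h lt))))
  have hX := (hs.comap (Subtype.val_injective (p := fun n : ℕ => n ∈ ⋃ lt, Set.range (h lt)))).comap
    eX.injective
  -- the structure with two points
  have hno : ∀ x : Fin k → Fin 2, ¬ Injective x := by
    intro x hx
    have := Fintype.card_le_of_injective x hx
    simp at this
    omega
  have hP : HT fun _ : Fin k → Fin 2 => False := ⟨fun _ h => h.elim, fun x hx => (hno x hx).elim⟩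
  have fP : Free 𝓕 fun _ : Fin k → Fin 2 => False := by
    intro F hF e he
    obtain ⟨_, ⟨u, v, huv⟩, h2⟩ := h𝓕 F hF
    obtain ⟨y, hy, _⟩ := h2 u v huv
    have := Fintype.card_le_of_injective (e ∘ y) (he.1.comp hy)
    simp at this
    omega
  obtain ⟨V, _, _, r, hr, hfree, hArr⟩ := step2 hk h𝓕 hP hX.ht fP hX.free Prop
  refine ⟨V, inferInstance, r, hr, hfree, fun ltA ltV hA hV => ?_⟩
  obtain ⟨b, hb, c, hc⟩ := hArr fun S => ∀ x ∈ S, ∀ y ∈ S, x < y → ltV x y
  have hbE := hb.emb hX.ht hr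
  -- on the copy the two orders agree or are opposite
  have hpair : ∀ i j : Fin n, i < j → ((∀ x ∈ ({b i, b j} : Set V), ∀ y ∈ ({b i, b j} : Set V),
      x < y → ltV x y) ↔ c) := by
    intro i j hij
    let a : Fin 2 ↪o Fin n := OrderEmbedding.ofStrictMono ![i, j] (by
      intro x y hxy
      fin_cases x <;> fin_cases y
      · exact absurd hxy (lt_irrefl _)
      · exact hij
      · exact absurd hxy (by decide)
      · exact absurd hxy (lt_irrefl _))
    have h2 := hc a fun x hx => (hno x hx.injective).elim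
    have h3 : ∀ z, z ∈ img (a.trans b) ↔ z ∈ ({b i, b j} : Set V) := by
      intro z
      rw [mem_img]
      constructor
      · rintro ⟨x, rfl⟩
        fin_cases x
        · exact Or.inl rfl
        · exact Or.inr rfl
      · rintro (rfl | rfl)
        · exact ⟨0, rfl⟩
        · exact ⟨1, rfl⟩
    rw [← h2]
    simp only [h3]
  have key : ∀ i j : Fin n, i < j → (ltV (b i) (b j) ↔ c) := by
    intro i j hij
    have hbij : b i < b j := b.strictMono hij
    rw [← hpair i j hij]
    constructor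
    · rintro h2 x (rfl | rfl) y (rfl | rfl) hxy
      · exact absurd hxy (lt_irrefl _)
      · exact h2
      · exact absurd hxy hbij.not_gt
      · exact absurd hxy (lt_irrefl _)
    · intro h2
      exact h2 _ (Or.inl rfl) _ (Or.inr rfl) hbij
  -- embedding with a given order of `A`
  have main : ∀ lt : {lt : A → A → Prop // STO lt}, ∃ j : A → Fin n, Injective j ∧
      (∀ x : Fin k → A, (((s.comap Subtype.val).comap eX).r (j ∘ x) ↔ q x)) ∧
      ∀ x y, (j x < j y ↔ lt.1 x y) := by
    intro lt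
    have hm : ∀ x, h lt x ∈ ⋃ lt, Set.range (h lt) := fun x => Set.mem_iUnion.2 ⟨lt, x, rfl⟩
    let j : A → Fin n := fun x => eX.symm ⟨h lt x, hm x⟩
    have hj : ∀ x, ((eX (j x) : {n : ℕ // n ∈ ⋃ lt, Set.range (h lt)}) : ℕ) = h lt x := by
      intro x
      simp [j]
    refine ⟨j, ?_, ?_, ?_⟩
    · intro x y hxy
      refine (hh lt).inj x trivial y trivial ?_
      rw [← hj, ← hj, hxy]
    · intro x
      have h2 := (hh lt).r x fun _ => trivial
      have h3 : (Subtype.val ∘ eX ∘ (j ∘ x) : Fin k → ℕ) = h lt ∘ x := funext fun i => hj (x i)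
      show s.r (Subtype.val ∘ eX ∘ (j ∘ x)) ↔ _
      rw [h3]
      exact h2
    · intro x y
      rw [← heX]
      show s.lt (eX (j x) : ℕ) (eX (j y) : ℕ) ↔ _
      rw [hj, hj]
      exact (hh lt).lt trivial x trivial y trivial
  by_cases hcc : c
  · obtain ⟨j, h2, h3, h4⟩ := main ⟨ltA, hA⟩
    refine ⟨b ∘ j, ⟨b.injective.comp h2, fun x => (hbE.2 (j ∘ x)).trans (h3 x)⟩, fun x y => ?_⟩
    refine Iff.trans (?_ : ltV (b (j x)) (b (j y)) ↔ j x < j y) (h4 x y)
    constructor
    · intro h5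
      rcases lt_trichotomy (j x) (j y) with h6 | h6 | h6
      · exact h6
      · rw [h6] at h5
        exact absurd h5 (hV.irr _)
      · exact absurd (hV.tr _ _ _ h5 ((key _ _ h6).2 hcc)) (hV.irr _)
    · intro h5
      exact (key _ _ h5).2 hcc
  · obtain ⟨j, h2, h3, h4⟩ := main ⟨_, hA.flip⟩
    refine ⟨b ∘ j, ⟨b.injective.comp h2, fun x => (hbE.2 (j ∘ x)).trans (h3 x)⟩, fun x y => ?_⟩
    refine Iff.trans (?_ : ltV (b (j x)) (b (j y)) ↔ j y < j x) (h4 y x)
    constructor
    · intro h5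
      rcases lt_trichotomy (j x) (j y) with h6 | h6 | h6
      · exact absurd ((key _ _ h6).1 h5) hcc
      · rw [h6] at h5
        exact absurd h5 (hV.irr _)
      · exact h6
    · intro h5
      have h6 : ¬ ltV (b (j y)) (b (j x)) := fun h7 => hcc ((key _ _ h5).1 h7)
      rcases hV.tri (b (j x)) (b (j y)) (fun h7 => h5.ne' (b.injective h7)) with h7 | h7
      · exact h7
      · exact absurd h7 h6

/-- The expansion property of `Forb k 𝓕`. -/
theorem expansion (hk : 3 ≤ k) {𝓕 : Set (CategoryTheory.Bundled.{0} (LR k).Structure)}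
    (h𝓕 : PairwiseUnbalanced k 𝓕) : ExpansionProperty k (Forb k 𝓕) := by
  rintro A ⟨hfin, hyp, hf⟩
  obtain ⟨V, hV, r, hr, hfree, key⟩ := expansion_aux hk (good_fam h𝓕) hyp (free_iff.1 hf)
  let sV : Str k V := ⟨r, fun _ _ => False⟩
  let _ := strR sV
  refine ⟨⟨V, strR sV⟩, ⟨hV, hr, free_iff.2 hfree⟩, fun ltA ltB hA hB => ?_⟩
  obtain ⟨e, he1, he2⟩ := key ltA ltB (sto_of hA) (sto_of hB)
  let _ := expandBy k A ltA
  let _ := expandBy k V ltB
  obtain ⟨e', -⟩ := emb_of_good ((good_Lt (k := k) (M := A) (N := V) Set.univ e).2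
    ⟨fun x _ y _ hxy => he1.1 hxy, fun x _ => he1.2 x, fun _ x _ y _ => he2 x y⟩)
  exact ⟨e'⟩

/-- The age of the expansion. -/
theorem age_Lt (hk : 3 ≤ k) {𝓕 : Set (CategoryTheory.Bundled.{0} (LR k).Structure)} {s : Str k ℕ}
    (hs : s.OH (fam 𝓕)) (hep : EP (fam 𝓕) s) : @age (LRlt k) ℕ (strLt s) = OrderedForb k 𝓕 := by
  let _ := strLt s
  ext A
  constructor
  · rintro ⟨hfg, ⟨e⟩⟩
    have hA := oh_of_pe (s := s) hs ((good_Lt _ _).1 (good_of_emb e))
    let _ := strR (ofLt k A)
    refine ⟨strR (ofLt k A), (ofLt k A).lt, ⟨Structure.fg_iff_finite.1 hfg, hA.ht,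
      free_iff.2 hA.free⟩, of_sto ⟨hA.irr, hA.tr, hA.tri⟩, ?_⟩
    ext n f x
    · exact Empty.elim f
    · match n, f, x with
      | _, SymLt.R, x => exact Iff.rfl
      | _, SymLt.lt, x =>
        show _ ↔ RelMap (L := LRlt k) SymLt.lt ![x 0, x 1]
        rw [← vec2 x]
  · obtain ⟨A, str⟩ := A
    rintro ⟨E, lt, ⟨hfin, hyp, hf⟩, hlt, hstr⟩
    change (LR k).Structure A at E
    change A → A → Prop at lt
    change str = expandBy k A lt at hstr
    subst hstr
    let _ := expandBy k A lt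
    refine ⟨(Structure.fg_iff_finite (L := LRlt k) (M := A)).2 hfin, ?_⟩
    have hlt' := sto_of hlt
    obtain ⟨h, hh⟩ := exists_embed (by omega : 0 < k) hs hep
      (u := ⟨HoldsR k A, lt⟩) (P := True)
      ⟨hyp, free_iff.1 hf, fun _ => hlt'.irr, fun _ => hlt'.tr, fun _ => hlt'.tri⟩
    obtain ⟨e, -⟩ := emb_of_good ((good_Lt (k := k) (M := A) (N := ℕ) Set.univ h).2
      ⟨hh.inj, hh.r, hh.lt⟩)
    exact ⟨e⟩

/-- The main theorem. -/
theorem main (hk : 3 ≤ k) {𝓕 : Set (CategoryTheory.Bundled.{0} (LR k).Structure)}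
    (h𝓕 : PairwiseUnbalanced k 𝓕) :
    (∃ (M : Type) (_ : (LR k).Structure M) (_ : Countable M), IsFraisseLimit (Forb k 𝓕) M) ∧
    (∀ (M : Type) [(LR k).Structure M] [Countable M], IsFraisseLimit (Forb k 𝓕) M →
      ∃ lt : M → M → Prop, IsStrictTotalOrder M lt ∧
        IsFiniteLanguageRamseyExpansion (incl k) M (expandBy k M lt) ∧
        @age (LRlt k) M (expandBy k M lt) = OrderedForb k 𝓕) ∧
    ExpansionProperty k (Forb k 𝓕) := by
  obtain ⟨s, hs, hep⟩ := exists_generic hk (good_fam h𝓕)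
  refine ⟨⟨ℕ, strR s, inferInstance, isFraisseLimit_R hk hs hep⟩, fun M _ _ hM => ?_,
    expansion hk h𝓕⟩
  let _ := strR s
  let _ := strLt s
  obtain ⟨e⟩ := hM.nonempty_equiv (isFraisseLimit_R hk hs hep)
  let lt : M → M → Prop := fun x y => s.lt (e x) (e y)
  let _ := expandBy k M lt
  let e' : M ≃[LRlt k] ℕ :=
    { toEquiv := e.toEquiv
      map_fun' := fun f => isEmptyElim f
      map_rel' := fun {n} r x => match n, r, x with
        | _, SymLt.R, x => e.map_rel Sym.R x
        | _, SymLt.lt, x => Iff.rfl }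
  refine ⟨lt, ?_, ?_, ?_⟩
  · exact of_sto ⟨fun x => hs.irr _, fun x y z => hs.tr _ _ _,
      fun x y hxy => hs.tri _ _ fun hc => hxy (e.injective hc)⟩
  · refine ⟨inferInstance, finite_LRlt k, ⟨fun {n} f => isEmptyElim f, ?_⟩, ⟨?_, ?_⟩,
      ultra_transfer e' (ultra_Lt hs hep), ?_⟩
    · intro n r r' _
      match n, r, r' with
      | _, Sym.R, Sym.R => rfl
    · intro n f
      exact isEmptyElim f
    · intro n r x
      match n, r, x with
      | _, Sym.R, x => rfl
    · rw [FirstOrder.Language.Equiv.age_eq_age e']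
      exact ramsey_generic hk (good_fam h𝓕) hs hep
  · rw [FirstOrder.Language.Equiv.age_eq_age e']
    exact age_Lt hk hs hep

end Pool.Agent.KS6_38.HG
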