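import Pool.Agent.KS6_38.HG.Steps

/-!
# The generic linearly ordered `k`-hypertournament omitting a family

One-point extensions (by the completion) and a countable structure with the extension property.
-/

set_option autoImplicit false

namespace Pool.Agent.KS6_38.HG

open Function Equiv

variable {k : ℕ} {U V W : Type}

/-- A `k`-ary relation and a binary relation. -/
@[ext] structure Str (k : ℕ) (V : Type) where
  r : (Fin k → V) → Prop
  lt : V → V → Prop

/-- `k`-hypertournaments omitting `𝓕`, with a strict linear order. -/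
structure Str.OH (𝓕 : Fam k) (s : Str k V) : Prop where
  ht : HT s.r
  free : Free 𝓕 s.r
  irr : ∀ x, ¬ s.lt x x
  tr : ∀ x y z, s.lt x y → s.lt y z → s.lt x z
  tri : ∀ x y, x ≠ y → s.lt x y ∨ s.lt y x

/-- the induced structure -/
def Str.comap (s : Str k V) (e : U → V) : Str k U :=
  ⟨fun x => s.r (e ∘ x), fun x y => s.lt (e x) (e y)⟩

theorem Str.OH.comap {𝓕 : Fam k} {s : Str k V} (h : s.OH 𝓕) {e : U → V} (he : Injective e) :
    (s.comap e).OH 𝓕 where
  ht := h.ht.comap he
  free := h.free.comap he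
  irr _ := h.irr _
  tr _ _ _ := h.tr _ _ _
  tri _ _ hxy := h.tri _ _ fun h' => hxy (he h')

/-- the linear order given by a strict total order -/
@[instance_reducible] noncomputable def mkLO (lt : V → V → Prop) (irr : ∀ x, ¬ lt x x)
    (tr : ∀ x y z, lt x y → lt y z → lt x z) (tri : ∀ x y, x ≠ y → lt x y ∨ lt y x) :
    LinearOrder V where
  le x y := x = y ∨ lt x y
  lt := lt
  le_refl _ := Or.inl rfl
  le_trans x y z := by
    rintro (rfl | h1) (rfl | h2)
    · exact Or.inl rfl
    · exact Or.inr h2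
    · exact Or.inr h1
    · exact Or.inr (tr _ _ _ h1 h2)
  lt_iff_le_not_ge x y := by
    constructor
    · intro h
      refine ⟨Or.inr h, ?_⟩
      rintro (rfl | h')
      · exact irr _ h
      · exact irr _ (tr _ _ _ h h')
    · rintro ⟨rfl | h, h'⟩
      · exact absurd (Or.inl rfl) h'
      · exact h
  le_antisymm x y := by
    rintro (rfl | h1) (h | h2)
    · rfl
    · rfl
    · exact h.symm
    · exact absurd (tr _ _ _ h1 h2) (irr _)
  le_total x y := by
    by_cases h : x = y
    · exact Or.inl (Or.inl h)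
    · rcases tri x y h with h | h
      · exact Or.inl (Or.inr h)
      · exact Or.inr (Or.inr h)
  toDecidableLE := Classical.decRel _

/-- the pairs where everything is given -/
def gra (D : V → Prop) : Option V → Option V → Prop
  | some _, some _ => True
  | none, some x => D x
  | some x, none => D x
  | none, none => False

/-- the new order -/
def lt' (s : Str k V) (A : V → Prop) : Option V → Option V → Prop
  | some x, some y => s.lt x y
  | none, some y => ¬ A y
  | some x, none => A x
  | none, none => False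

theorem map_val_injective (D : V → Prop) :
    Injective (Option.map (Subtype.val : {x // D x} → V)) :=
  Option.map_injective Subtype.val_injective

/-- cliques lie in the old or in the new part -/
theorem clique_cases {D : V → Prop} {e : W → Option V} (h : ∀ u v, u ≠ v → gra D (e u) (e v)) :
    (∃ e' : W → V, e = some ∘ e') ∨
      ∃ e' : W → Option {x // D x}, e = Option.map Subtype.val ∘ e' := by
  classical
  by_cases hn : ∃ u, e u = none
  · obtain ⟨u, hu⟩ := hn
    right
    have h1 : ∀ v, ∃ z : Option {x // D x}, Option.map Subtype.val z = e v := by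
      intro v
      by_cases hv : u = v
      · subst hv
        exact ⟨none, by rw [hu]; rfl⟩
      · have h2 := h u v hv
        rw [hu] at h2
        cases hev : e v with
        | none => rw [hev] at h2; exact absurd h2 id
        | some x => rw [hev] at h2; exact ⟨some ⟨x, h2⟩, rfl⟩
    choose e' he' using h1
    exact ⟨e', (funext he').symm⟩
  · left
    have h1 : ∀ v, ∃ z : V, some z = e v := by
      intro v
      cases hev : e v with
      | none => exact absurd ⟨v, hev⟩ hn
      | some x => exact ⟨x, rfl⟩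
    choose e' he' using h1
    exact ⟨e', (funext he').symm⟩

/-- the relation on the part where it is given -/
def rho (s : Str k V) {D : V → Prop} (t : Str k (Option {x // D x})) (x : Fin k → Option V) :
    Prop :=
  (∃ x' : Fin k → V, x = some ∘ x' ∧ s.r x') ∨
    ∃ x' : Fin k → Option {x // D x}, x = Option.map Subtype.val ∘ x' ∧ t.r x'

section Rho

variable {s : Str k V} {D : V → Prop} {t : Str k (Option {x // D x})}

theorem agree_rho (hag : t.comap some = s.comap Subtype.val) {x' : Fin k → V}
    {x'' : Fin k → Option {x // D x}} (h : some ∘ x' = Option.map Subtype.val ∘ x'') :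
    t.r x'' ↔ s.r x' := by
  have h1 : ∀ i, ∃ d : {x // D x}, x'' i = some d ∧ d.1 = x' i := by
    intro i
    have h2 : some (x' i) = Option.map Subtype.val (x'' i) := congrFun h i
    cases hx : x'' i with
    | none => rw [hx] at h2; simp at h2
    | some d =>
      rw [hx] at h2
      exact ⟨d, rfl, (Option.some.inj h2).symm⟩
  choose d hd1 hd2 using h1
  have e1 : x'' = some ∘ d := funext hd1
  have e2 : x' = Subtype.val ∘ d := funext fun i => (hd2 i).symm
  have h3 : (t.comap some).r d ↔ (s.comap Subtype.val).r d := by rw [hag]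
  rw [e1, e2]
  exact h3

theorem rho_old (hag : t.comap some = s.comap Subtype.val) (x' : Fin k → V) :
    rho s t (some ∘ x') ↔ s.r x' := by
  constructor
  · rintro (⟨y, h1, h2⟩ | ⟨y, h1, h2⟩)
    · have : x' = y := (Option.some_injective V).comp_left h1
      rwa [this]
    · exact (agree_rho hag h1).1 h2
  · exact fun h => Or.inl ⟨x', rfl, h⟩

theorem rho_new (hag : t.comap some = s.comap Subtype.val) (x' : Fin k → Option {x // D x}) :
    rho s t (Option.map Subtype.val ∘ x') ↔ t.r x' := by
  constructor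
  · rintro (⟨y, h1, h2⟩ | ⟨y, h1, h2⟩)
    · exact (agree_rho hag h1.symm).2 h2
    · have : x' = y := (map_val_injective D).comp_left h1
      rwa [this]
  · exact fun h => Or.inr ⟨x', rfl, h⟩

end Rho

/-- One-point extensions. -/
theorem one_point (hk : 3 ≤ k) {𝓕 : Fam k} (h𝓕 : Good 𝓕) {s : Str k V} (hs : s.OH 𝓕)
    {D : V → Prop} {t : Str k (Option {x // D x})} (ht : t.OH 𝓕)
    (hag : t.comap some = s.comap Subtype.val) :
    ∃ s' : Str k (Option V), s'.OH 𝓕 ∧ s'.comap some = s ∧
      s'.comap (Option.map Subtype.val) = t := by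
  classical
  have hlt : ∀ d d' : {x // D x}, t.lt (some d) (some d') ↔ s.lt d d' := by
    intro d d'
    have : (t.comap some).lt d d' ↔ (s.comap Subtype.val).lt d d' := by rw [hag]
    exact this
  let A : V → Prop := fun x => ∃ d : {x // D x}, t.lt (some d) none ∧ (x = d ∨ s.lt x d)
  have hA : ∀ x y, s.lt x y → A y → A x := by
    rintro x y hxy ⟨z, h1, rfl | h3⟩
    · exact ⟨z, h1, Or.inr hxy⟩
    · exact ⟨z, h1, Or.inr (hs.tr _ _ _ hxy h3)⟩
  have hAD : ∀ d : {x // D x}, A d ↔ t.lt (some d) none := by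
    intro d
    constructor
    · rintro ⟨d', h1, h2 | h3⟩
      · rw [Subtype.ext h2]
        exact h1
      · exact ht.tr _ _ _ ((hlt d d').2 h3) h1
    · intro h
      exact ⟨d, h, Or.inl rfl⟩
  have hAD' : ∀ d : {x // D x}, ¬ A d ↔ t.lt none (some d) := by
    intro d
    rw [hAD]
    constructor
    · intro h
      rcases ht.tri none (some d) (by simp) with h1 | h1
      · exact h1
      · exact absurd h1 h
    · intro h h1
      exact ht.irr _ (ht.tr _ _ _ h h1)
  have irr : ∀ x, ¬ lt' s A x x := by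
    rintro (_ | x)
    · exact id
    · exact hs.irr x
  have tr : ∀ x y z, lt' s A x y → lt' s A y z → lt' s A x z := by
    rintro (_ | x) (_ | y) (_ | z) h1 h2
    · exact h1
    · exact h2
    · exact h1 h2
    · exact fun h => h1 (hA _ _ h2 h)
    · exact h1
    · rcases eq_or_ne x z with h | h
      · subst h
        exact absurd h1 h2
      · rcases hs.tri x z h with h | h
        · exact h
        · exact absurd (hA _ _ h h1) h2
    · exact hA _ _ h1 h2
    · exact hs.tr _ _ _ h1 h2
  have tri : ∀ x y, x ≠ y → lt' s A x y ∨ lt' s A y x := by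
    rintro (_ | x) (_ | y) h
    · exact absurd rfl h
    · exact (em (A y)).symm
    · exact em (A x)
    · exact hs.tri x y fun h' => h (congrArg some h')
  let lo : LinearOrder (Option V) := mkLO (lt' s A) irr tr tri
  have hG : ∀ u v : Option V, gra D u v → gra D v u := by
    rintro (_ | u) (_ | v) h <;> exact h
  obtain ⟨c1, c2, c3⟩ := completion hk hG (r0 := rho s t) (by
    intro x hx hc σ
    rcases clique_cases hc with ⟨x', rfl⟩ | ⟨x', rfl⟩
    · rw [comp_assoc, rho_old hag, rho_old hag]
      exact hs.ht.perm _ hx.of_comp σ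
    · rw [comp_assoc, rho_new hag, rho_new hag]
      exact ht.ht.perm _ hx.of_comp σ)
  have e1 : ∀ x : Fin k → V, rOf (cg (gra D) (rho s t)) (some ∘ x) ↔ s.r x := by
    intro x
    by_cases hx : Injective x
    · rw [← rho_old hag]
      exact c2 _ ((Option.some_injective V).comp hx) fun i j _ => trivial
    · exact iff_of_false (fun h => hx (c1.inj _ h).of_comp) fun h => hx (hs.ht.inj _ h)
  have e2 : ∀ x : Fin k → Option {x // D x},
      rOf (cg (gra D) (rho s t)) (Option.map Subtype.val ∘ x) ↔ t.r x := by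
    intro x
    by_cases hx : Injective x
    · rw [← rho_new hag]
      refine c2 _ ((map_val_injective D).comp hx) fun i j hij => ?_
      simp only [comp_apply]
      cases hi : x i with
      | none =>
        cases hj : x j with
        | none => exact hij (hx (hi.trans hj.symm))
        | some d => exact d.2
      | some d =>
        cases hj : x j with
        | none => exact d.2
        | some d' => exact trivial
    · exact iff_of_false (fun h => hx (c1.inj _ h).of_comp) fun h => hx (ht.ht.inj _ h)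
  refine ⟨⟨rOf (cg (gra D) (rho s t)), lt' s A⟩, ⟨c1, ?_, irr, tr, tri⟩, ?_, ?_⟩
  · intro F hF e he
    have hE : ∀ u v, u ≠ v → gra D (e u) (e v) := fun u v huv => clique_of_emb h𝓕 c3 hF he huv
    rcases clique_cases hE with ⟨e', rfl⟩ | ⟨e', rfl⟩
    · exact hs.free F hF e' ⟨he.1.of_comp, fun x => (e1 (e' ∘ x)).symm.trans (he.2 x)⟩
    · exact ht.free F hF e' ⟨he.1.of_comp, fun x => (e2 (e' ∘ x)).symm.trans (he.2 x)⟩
  · ext x y
    · exact e1 x
    · exact Iff.rfl
  · ext x y
    · exact e2 x
    · rcases x with _ | x <;> rcases y with _ | y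
      · exact iff_of_false id (ht.irr _)
      · exact hAD' y
      · exact hAD x
      · exact (hlt x y).symm

/-- The extension property. -/
def EP (𝓕 : Fam k) (s : Str k V) : Prop :=
  ∀ (D : Finset V) (t : Str k (Option {x // x ∈ D})), t.OH 𝓕 →
    t.comap some = s.comap Subtype.val →
    ∃ e : Option {x // x ∈ D} → V, Injective e ∧ (∀ d : {x // x ∈ D}, e (some d) = d) ∧
      s.comap e = t

/-- the two structures agree on `F` -/
def Agree (F : Finset V) (s s' : Str k V) : Prop :=
  (∀ x : Fin k → V, (∀ i, x i ∈ F) → (s.r x ↔ s'.r x)) ∧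
    ∀ x ∈ F, ∀ y ∈ F, (s.lt x y ↔ s'.lt x y)

theorem Agree.refl (F : Finset V) (s : Str k V) : Agree F s s :=
  ⟨fun _ _ => Iff.rfl, fun _ _ _ _ => Iff.rfl⟩

theorem Agree.trans {F F' : Finset V} {s s' s'' : Str k V} (h : Agree F s s')
    (hF : F ⊆ F') (h' : Agree F' s' s'') : Agree F s s'' :=
  ⟨fun x hx => (h.1 x hx).trans (h'.1 x fun i => hF (hx i)),
    fun x hx y hy => (h.2 x hx y hy).trans (h'.2 x (hF hx) y (hF hy))⟩

theorem Agree.comap {F : Finset V} {s s' : Str k V} (h : Agree F s s') {e : U → V}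
    (he : ∀ u, e u ∈ F) : s.comap e = s'.comap e := by
  ext x y
  · exact h.1 (e ∘ x) fun i => he _
  · exact h.2 _ (he x) _ (he y)

/-- insertion of the new point at the place `m` -/
def insEquiv (m : ℕ) : ℕ ≃ Option ℕ where
  toFun x := if x < m then some x else if x = m then none else some (x - 1)
  invFun
    | none => m
    | some x => if x < m then x else x + 1
  left_inv x := by
    by_cases h1 : x < m
    · simp [h1]
    · by_cases h2 : x = m
      · simp [h2]
      · have h3 : ¬ (x - 1 < m) := by omega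
        simp only [h1, h2, if_false, h3]
        omega
  right_inv x := by
    rcases x with _ | x
    · simp
    · by_cases h1 : x < m
      · simp [h1]
      · have h3 : ¬ (x + 1 < m) := by omega
        have h4 : ¬ (x + 1 = m) := by omega
        simp [h1, h3, h4]

theorem insEquiv_lt {m x : ℕ} (h : x < m) : insEquiv m x = some x := by
  simp [insEquiv, h]

theorem insEquiv_self (m : ℕ) : insEquiv m m = none := by
  simp [insEquiv]

/-- conditions: a structure and a window -/
structure Cond (𝓕 : Fam k) where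
  F : Finset ℕ
  s : Str k ℕ
  oh : s.OH 𝓕

/-- tasks: one-point extensions of finite sets -/
abbrev Task (k : ℕ) : Type := Σ D : Finset ℕ, Str k (Option {x // x ∈ D})

instance finiteStr [Finite V] : Finite (Str k V) :=
  Finite.of_injective (fun s : Str k V => (s.r, s.lt)) fun s s' h => by
    cases s; cases s'; simp only [Prod.mk.injEq] at h; obtain ⟨rfl, rfl⟩ := h; rfl

/-- the new point at the place `m` -/
def place {D : Finset ℕ} (m : ℕ) : Option {x // x ∈ D} → ℕ
  | none => m
  | some d => d

theorem cond_step (hk : 3 ≤ k) {𝓕 : Fam k} (h𝓕 : Good 𝓕) (c : Cond 𝓕) (n : ℕ) (t : Task k) :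
    ∃ c' : Cond 𝓕, n ∈ c'.F ∧ c.F ⊆ c'.F ∧ Agree c.F c.s c'.s ∧ t.1 ⊆ c'.F ∧
    (t.2.OH 𝓕 → t.2.comap some = c'.s.comap Subtype.val →
      ∃ e : Option {x // x ∈ t.1} → ℕ, Injective e ∧ (∀ d : {x // x ∈ t.1}, e (some d) = d) ∧
        (∀ z, e z ∈ c'.F) ∧ c'.s.comap e = t.2) := by
  classical
  by_cases hv : t.2.OH 𝓕 ∧ t.2.comap some = c.s.comap Subtype.val
  · obtain ⟨s'', h1, h2, h3⟩ := one_point hk h𝓕 c.oh (D := (· ∈ t.1)) hv.1 hv.2
    let m : ℕ := (c.F ∪ t.1 ∪ {n}).sup id + 1
    have hm : ∀ x ∈ c.F ∪ t.1 ∪ {n}, x < m := fun x hx =>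
      Nat.lt_succ_of_le (Finset.le_sup (f := id) hx)
    have he : ∀ x ∈ c.F ∪ t.1 ∪ {n}, insEquiv m x = some x := fun x hx => insEquiv_lt (hm x hx)
    have hF : c.F ⊆ c.F ∪ t.1 ∪ {n} := fun x hx => by simp [hx]
    have ht : t.1 ⊆ c.F ∪ t.1 ∪ {n} := fun x hx => by simp [hx]
    refine ⟨⟨insert m (c.F ∪ t.1 ∪ {n}), s''.comap (insEquiv m),
      h1.comap (insEquiv m).injective⟩, ?_, ?_, ?_, ?_, ?_⟩
    · simp
    · exact hF.trans (Finset.subset_insert _ _)
    · constructor
      · intro x hx
        have h4 : (insEquiv m) ∘ x = some ∘ x := funext fun i => he _ (hF (hx i))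
        show _ ↔ s''.r (insEquiv m ∘ x)
        rw [h4, ← h2]
        rfl
      · intro x hx y hy
        show _ ↔ s''.lt (insEquiv m x) (insEquiv m y)
        rw [he x (hF hx), he y (hF hy), ← h2]
        rfl
    · exact ht.trans (Finset.subset_insert _ _)
    · intro _ _
      have h4 : (insEquiv m) ∘ (place m : Option {x // x ∈ t.1} → ℕ) =
          Option.map Subtype.val := by
        funext z
        rcases z with _ | d
        · exact insEquiv_self m
        · exact he _ (ht d.2)
      refine ⟨place m, ?_, fun d => rfl, ?_, ?_⟩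
      · have h5 : Injective ((insEquiv m) ∘ (place m : Option {x // x ∈ t.1} → ℕ)) := by
          rw [h4]
          exact map_val_injective _
        exact h5.of_comp
      · rintro (_ | d)
        · exact Finset.mem_insert_self _ _
        · exact Finset.mem_insert_of_mem (ht d.2)
      · have h5 : (s''.comap (insEquiv m)).comap (place m : Option {x // x ∈ t.1} → ℕ) =
            s''.comap ((insEquiv m) ∘ place m) := rfl
        rw [h5, h4]
        exact h3
  · exact ⟨⟨c.F ∪ t.1 ∪ {n}, c.s, c.oh⟩, by simp, fun x hx => by simp [hx], Agree.refl _ _,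
      fun x hx => by simp [hx], fun h h' => absurd ⟨h, h'⟩ hv⟩

theorem exists_OH_nat (hk : 3 ≤ k) {𝓕 : Fam k} (h𝓕 : Good 𝓕) : ∃ s : Str k ℕ, s.OH 𝓕 := by
  obtain ⟨c1, -, c3⟩ := completion hk (V := ℕ) (G := fun _ _ => False) (fun _ _ h => h)
    (r0 := fun _ => False) (by
      intro x _ hc
      have h1 := hc ⟨0, by omega⟩ ⟨1, by omega⟩ (by simp)
      exact absurd h1 id)
  refine ⟨⟨_, fun x y => x < y⟩, c1, ?_, fun x => lt_irrefl x, fun x y z => lt_trans,
    fun x y => lt_or_gt_of_ne⟩
  intro F hF e he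
  obtain ⟨_, ⟨u, v, huv⟩, _⟩ := h𝓕 F hF
  exact clique_of_emb h𝓕 c3 hF he huv

/-- The generic linearly ordered `k`-hypertournament omitting `𝓕` exists. -/
theorem exists_generic (hk : 3 ≤ k) {𝓕 : Fam k} (h𝓕 : Good 𝓕) :
    ∃ s : Str k ℕ, s.OH 𝓕 ∧ EP 𝓕 s := by
  classical
  obtain ⟨s0, hs0⟩ := exists_OH_nat hk h𝓕
  have : Nonempty (Task k) := ⟨⟨∅, ⟨fun _ => True, fun _ _ => True⟩⟩⟩
  obtain ⟨f, hf⟩ := exists_surjective_nat (Task k)
  choose nxt h1 h2 h3 h4 h5 using cond_step hk h𝓕
  obtain ⟨seq, hseq⟩ : ∃ seq : ℕ → Cond 𝓕, ∀ n, seq (n + 1) = nxt (seq n) n (f n) :=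
    ⟨fun n => Nat.rec ⟨∅, s0, hs0⟩ (fun n c => nxt c n (f n)) n, fun n => rfl⟩
  have hmono : ∀ n k, (seq n).F ⊆ (seq (n + k)).F ∧ Agree (seq n).F (seq n).s (seq (n + k)).s := by
    intro n k
    induction k with
    | zero => exact ⟨fun x hx => hx, Agree.refl _ _⟩
    | succ k ih =>
      rw [← add_assoc, hseq]
      exact ⟨ih.1.trans (h2 _ _ _), ih.2.trans ih.1 (h3 _ _ _)⟩
  have hmono' : ∀ n m, n ≤ m → (seq n).F ⊆ (seq m).F ∧ Agree (seq n).F (seq n).s (seq m).s := by
    intro n m hnm
    obtain ⟨k, rfl⟩ := Nat.exists_eq_add_of_le hnm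
    exact hmono n k
  have hmem : ∀ x n, x < n → x ∈ (seq n).F := by
    intro x n hx
    exact (hmono' (x + 1) n hx).1 (by rw [hseq]; exact h1 _ _ _)
  have hsup : ∀ (x : Fin k → ℕ) i, x i ∈ (seq (Finset.univ.sup x + 1)).F := fun x i =>
    hmem _ _ (Nat.lt_succ_of_le (Finset.le_sup (f := x) (Finset.mem_univ i)))
  let s : Str k ℕ := ⟨fun x => (seq (Finset.univ.sup x + 1)).s.r x,
    fun x y => (seq (x + y + 1)).s.lt x y⟩
  have hr : ∀ n (x : Fin k → ℕ), (∀ i, x i ∈ (seq n).F) → (s.r x ↔ (seq n).s.r x) := by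
    intro n x hx
    rcases le_total n (Finset.univ.sup x + 1) with h | h
    · exact ((hmono' _ _ h).2.1 x hx).symm
    · exact (hmono' _ _ h).2.1 x (hsup x)
  have hl : ∀ n x y, x ∈ (seq n).F → y ∈ (seq n).F → (s.lt x y ↔ (seq n).s.lt x y) := by
    intro n x y hx hy
    rcases le_total n (x + y + 1) with h | h
    · exact ((hmono' _ _ h).2.2 x hx y hy).symm
    · exact (hmono' _ _ h).2.2 x (hmem x (x + y + 1) (by omega)) y
        (hmem y (x + y + 1) (by omega))
  have hag : ∀ n, Agree (seq n).F s (seq n).s := fun n =>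
    ⟨fun x hx => hr n x hx, fun x hx y hy => hl n x y hx hy⟩
  refine ⟨s, ⟨⟨?_, ?_⟩, ?_, ?_, ?_, ?_⟩, ?_⟩
  · intro x h
    exact (seq (Finset.univ.sup x + 1)).oh.ht.inj _ h
  · intro x hx σ
    rw [hr (Finset.univ.sup x + 1) (x ∘ σ) (fun i => hsup x (σ i)), hr _ x (hsup x)]
    exact (seq _).oh.ht.perm x hx σ
  · intro F hF e he
    obtain ⟨hfin, _, _⟩ := h𝓕 F hF
    have := Fintype.ofFinite F.1
    have hE : ∀ u, e u ∈ (seq (Finset.univ.sup e + 1)).F := fun u =>
      hmem _ _ (Nat.lt_succ_of_le (Finset.le_sup (f := e) (Finset.mem_univ u)))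
    exact (seq (Finset.univ.sup e + 1)).oh.free F hF e ⟨he.1, fun x =>
      (hr _ (e ∘ x) fun i => hE _).symm.trans (he.2 x)⟩
  · intro x h
    exact (seq (x + x + 1)).oh.irr x h
  · intro x y z
    have hx : x ∈ (seq (x + y + z + 1)).F := hmem x (x + y + z + 1) (by omega)
    have hy : y ∈ (seq (x + y + z + 1)).F := hmem y (x + y + z + 1) (by omega)
    have hz : z ∈ (seq (x + y + z + 1)).F := hmem z (x + y + z + 1) (by omega)
    rw [hl _ _ _ hx hy, hl _ _ _ hy hz, hl _ _ _ hx hz]
    exact (seq _).oh.tr x y z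
  · intro x y hxy
    have hx : x ∈ (seq (x + y + 1)).F := hmem x (x + y + 1) (by omega)
    have hy : y ∈ (seq (x + y + 1)).F := hmem y (x + y + 1) (by omega)
    rw [hl _ _ _ hx hy, hl _ _ _ hy hx]
    exact (seq _).oh.tri x y hxy
  · intro D t hto htag
    obtain ⟨n, hn⟩ := hf ⟨D, t⟩
    have key := h4 (seq n) n (f n)
    have key' := h5 (seq n) n (f n)
    rw [← hseq, hn] at key key'
    have h6 : t.comap some = (seq (n + 1)).s.comap Subtype.val := by
      rw [htag]
      exact (hag (n + 1)).comap fun d => key d.2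
    obtain ⟨e, he1, he2, he3, he4⟩ := key' hto h6
    exact ⟨e, he1, he2, ((hag (n + 1)).comap he3).trans he4⟩

end Pool.Agent.KS6_38.HG
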