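import Pool.Agent.KS6_38.HG.Gen

/-!
# Extension of partial embeddings into a structure with the extension property
-/

set_option autoImplicit false

namespace Pool.Agent.KS6_38.HG

open Function Equiv

variable {k : ℕ} {U V : Type}

/-- `k`-hypertournaments omitting `𝓕`, with a strict linear order if `P` holds. -/
structure UOK (P : Prop) (𝓕 : Fam k) (s : Str k U) : Prop where
  ht : HT s.r
  free : Free 𝓕 s.r
  irr : P → ∀ x, ¬ s.lt x x
  tr : P → ∀ x y z, s.lt x y → s.lt y z → s.lt x z
  tri : P → ∀ x y, x ≠ y → s.lt x y ∨ s.lt y x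

theorem Str.OH.uok {𝓕 : Fam k} {s : Str k U} (h : s.OH 𝓕) (P : Prop) : UOK P 𝓕 s :=
  ⟨h.ht, h.free, fun _ => h.irr, fun _ => h.tr, fun _ => h.tri⟩

/-- `h` is a partial embedding on `F`; the order is preserved if `P` holds. -/
structure PE (P : Prop) (u : Str k U) (s : Str k V) (F : Set U) (h : U → V) : Prop where
  inj : ∀ x ∈ F, ∀ y ∈ F, h x = h y → x = y
  r : ∀ x : Fin k → U, (∀ i, x i ∈ F) → (s.r (h ∘ x) ↔ u.r x)
  lt : P → ∀ x ∈ F, ∀ y ∈ F, (s.lt (h x) (h y) ↔ u.lt x y)

theorem PE.extend [DecidableEq U] {P : Prop} {𝓕 : Fam k} {u : Str k U} {s : Str k V}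
    (hs : s.OH 𝓕) (hep : EP 𝓕 s) (hu : UOK P 𝓕 u) {F : Finset U} {h : U → V}
    (hh : PE P u s (F : Set U) h) {b : U} (hb : b ∉ F) :
    ∃ v, PE P u s (insert b (F : Set U)) (update h b v) := by
  classical
  -- the inverse of `h`
  obtain ⟨g, hg⟩ : ∃ g : V → U, ∀ x ∈ F, g (h x) = x := by
    refine ⟨fun y => if hy : ∃ x ∈ F, h x = y then hy.choose else b, fun x hx => ?_⟩
    have hy : ∃ x' ∈ F, h x' = h x := ⟨x, hx, rfl⟩
    simp only [dif_pos hy]
    exact hh.inj _ hy.choose_spec.1 _ hx hy.choose_spec.2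
  have hbne : ∀ x ∈ F, b ≠ x := fun x hx hc => hb (hc ▸ hx)
  let gg : Option {y // y ∈ F.image h} → U := fun z => z.elim b fun d => g d
  have hgD : ∀ d : {y // y ∈ F.image h}, ∃ x ∈ F, h x = d ∧ g d = x := by
    intro d
    obtain ⟨x, hx, hxd⟩ := Finset.mem_image.1 d.2
    exact ⟨x, hx, hxd, by rw [← hxd]; exact hg x hx⟩
  have hgg : Injective gg := by
    rintro (_ | d) (_ | d') hdd
    · rfl
    · obtain ⟨x, hx, -, h2⟩ := hgD d'
      have h3 : b = g d' := hdd
      exact absurd (h3.trans h2) (hbne x hx)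
    · obtain ⟨x, hx, -, h2⟩ := hgD d
      have h3 : g d = b := hdd
      exact absurd (h3.symm.trans h2) (hbne x hx)
    · obtain ⟨x, hx, h1, h2⟩ := hgD d
      obtain ⟨x', hx', h1', h2'⟩ := hgD d'
      have h3 : g d = g d' := hdd
      rw [h2, h2'] at h3
      subst h3
      exact congrArg some (Subtype.ext (h1.symm.trans h1'))
  let A : {y // y ∈ F.image h} → Prop := fun d => P → u.lt (g d) b
  let tlt : Option {y // y ∈ F.image h} → Option {y // y ∈ F.image h} → Prop
    | some d, some d' => s.lt d d'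
    | some d, none => A d
    | none, some d => ¬ A d
    | none, none => False
  have hslt : P → ∀ d d' : {y // y ∈ F.image h}, (s.lt d d' ↔ u.lt (g d) (g d')) := by
    intro hP d d'
    obtain ⟨x, hx, h1, h2⟩ := hgD d
    obtain ⟨x', hx', h1', h2'⟩ := hgD d'
    rw [← h1, ← h1', hg x hx, hg x' hx']
    exact hh.lt hP x hx x' hx'
  have hAd : ∀ d d', s.lt d.1 d'.1 → A d' → A d := fun d d' h1 h2 hP =>
    hu.tr hP _ _ _ ((hslt hP d d').1 h1) (h2 hP)
  let t : Str k (Option {y // y ∈ F.image h}) := ⟨fun x => u.r (gg ∘ x), tlt⟩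
  have hto : t.OH 𝓕 := by
    refine ⟨hu.ht.comap hgg, hu.free.comap hgg, ?_, ?_, ?_⟩
    · rintro (_ | d)
      · exact id
      · exact hs.irr _
    · rintro (_ | x) (_ | y) (_ | z) h1 h2
      · exact h1
      · exact h2
      · exact h1 h2
      · exact fun h => h1 (hAd _ _ h2 h)
      · exact h1
      · rcases eq_or_ne x z with h | h
        · subst h
          exact absurd h1 h2
        · rcases hs.tri x.1 z.1 (fun h' => h (Subtype.ext h')) with h | h
          · exact h
          · exact absurd (hAd _ _ h h1) h2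
      · exact hAd _ _ h1 h2
      · exact hs.tr _ _ _ h1 h2
    · rintro (_ | x) (_ | y) h
      · exact absurd rfl h
      · exact (em (A y)).symm
      · exact em (A x)
      · exact hs.tri x.1 y.1 fun h' => h (congrArg some (Subtype.ext h'))
  have hag : t.comap some = s.comap Subtype.val := by
    ext x y
    · have h1 : ∀ i, ∃ z ∈ F, h z = (x i : V) ∧ g (x i) = z := fun i => hgD (x i)
      choose z hz hz1 hz2 using h1
      have e1 : gg ∘ some ∘ x = z := funext hz2
      have e2 : (Subtype.val ∘ x : Fin k → V) = h ∘ z := funext fun i => (hz1 i).symm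
      show u.r (gg ∘ some ∘ x) ↔ s.r (Subtype.val ∘ x)
      rw [e1, e2]
      exact (hh.r z hz).symm
    · exact Iff.rfl
  obtain ⟨e, he1, he2, he3⟩ := hep (F.image h) t hto hag
  have hub : update h b (e none) b = e none := update_self _ _ _
  have huF : ∀ x ∈ F, update h b (e none) x = h x := fun x hx =>
    update_of_ne (hbne x hx).symm _ _
  -- the points of `insert b F` as points of `t`
  let c : U → Option {y // y ∈ F.image h} := fun x =>
    if hx : x ∈ F then some ⟨h x, Finset.mem_image_of_mem h hx⟩ else none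
  have hc1 : ∀ x ∈ insert b (F : Set U), e (c x) = update h b (e none) x := by
    rintro x (rfl | hx)
    · simp only [c, dif_neg hb, hub]
    · have hx' : x ∈ F := hx
      simp only [c, dif_pos hx', huF x hx', he2]
  have hc2 : ∀ x ∈ insert b (F : Set U), gg (c x) = x := by
    rintro x (rfl | hx)
    · simp only [c, dif_neg hb]
      rfl
    · have hx' : x ∈ F := hx
      simp only [c, dif_pos hx']
      exact hg x hx'
  refine ⟨e none, ?_, ?_, ?_⟩
  · intro x hx y hy hxy
    rw [← hc1 x hx, ← hc1 y hy] at hxy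
    rw [← hc2 x hx, ← hc2 y hy, he1 hxy]
  · intro x hx
    have h1 : update h b (e none) ∘ x = e ∘ (c ∘ x) := funext fun i => (hc1 _ (hx i)).symm
    have h2 : gg ∘ (c ∘ x) = x := funext fun i => hc2 _ (hx i)
    rw [h1]
    have h3 : (s.comap e).r (c ∘ x) ↔ t.r (c ∘ x) := by rw [he3]
    refine h3.trans ?_
    show u.r (gg ∘ (c ∘ x)) ↔ _
    rw [h2]
  · intro hP x hx y hy
    rw [← hc1 x hx, ← hc1 y hy]
    have h3 : (s.comap e).lt (c x) (c y) ↔ t.lt (c x) (c y) := by rw [he3]
    refine h3.trans ?_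
    show tlt (c x) (c y) ↔ _
    rcases hx with rfl | hx <;> rcases hy with rfl | hy
    · simp only [c, dif_neg hb]
      exact iff_of_false id (hu.irr hP _)
    · have hy' : y ∈ F := hy
      simp only [c, dif_neg hb, dif_pos hy']
      show ¬ (P → u.lt (g (h y)) x) ↔ _
      rw [hg y hy']
      constructor
      · intro h1
        rcases hu.tri hP _ _ (hbne y hy') with h2 | h2
        · exact h2
        · exact absurd (fun _ => h2) h1
      · intro h1 h2
        exact hu.irr hP _ (hu.tr hP _ _ _ h1 (h2 hP))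
    · have hx' : x ∈ F := hx
      simp only [c, dif_neg hb, dif_pos hx']
      show (P → u.lt (g (h x)) y) ↔ _
      rw [hg x hx']
      exact ⟨fun h1 => h1 hP, fun h1 _ => h1⟩
    · have hx' : x ∈ F := hx
      have hy' : y ∈ F := hy
      simp only [c, dif_pos hx', dif_pos hy']
      show s.lt (h x) (h y) ↔ _
      exact hh.lt hP x hx y hy

/-- Universality for finite structures. -/
theorem exists_embed [Finite U] [Nonempty V] {P : Prop} {𝓕 : Fam k} {u : Str k U} {s : Str k V}
    (hk : 0 < k) (hs : s.OH 𝓕) (hep : EP 𝓕 s) (hu : UOK P 𝓕 u) :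
    ∃ h : U → V, PE P u s Set.univ h := by
  classical
  have := Fintype.ofFinite U
  obtain ⟨v0⟩ : Nonempty V := inferInstance
  have key : ∀ F : Finset U, ∃ h : U → V, PE P u s (F : Set U) h := by
    intro F
    induction F using Finset.induction_on with
    | empty =>
      exact ⟨fun _ => v0, fun x hx => absurd hx (by simp), fun x hx =>
        absurd (hx ⟨0, hk⟩) (by simp), fun _ x hx => absurd hx (by simp)⟩
    | insert b F hb ih =>
      obtain ⟨h, hh⟩ := ih
      obtain ⟨v, hv⟩ := hh.extend hs hep hu hb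
      exact ⟨update h b v, by rw [Finset.coe_insert]; exact hv⟩
  obtain ⟨h, hh⟩ := key Finset.univ
  rw [Finset.coe_univ] at hh
  exact ⟨h, hh⟩

end Pool.Agent.KS6_38.HG
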