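import Mathlib

/-!
# Ultrahomogeneity from one-point extensions of finite partial isomorphisms
-/

set_option autoImplicit false

namespace Pool.Agent.KS6_38.HG

open FirstOrder Language Structure Substructure Function

section Ultra

variable {L : FirstOrder.Language.{0, 0}} [L.IsRelational] {M N : Type} [L.Structure M] [L.Structure N]

/-- In a relational language every set is a substructure. -/
def subOf (s : Set M) : L.Substructure M := ⟨s, fun f => isEmptyElim f⟩

theorem mem_subOf {s : Set M} {x : M} : x ∈ (subOf s : L.Substructure M) ↔ x ∈ s := Iff.rfl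

variable (L) in
/-- `h` is a partial isomorphism on `S`. -/
def PIso (S : Set M) (h : M → N) : Prop :=
  (∀ x ∈ S, ∀ y ∈ S, h x = h y → x = y) ∧
  ∀ (n : ℕ) (R : L.Relations n) (x : Fin n → M), (∀ i, x i ∈ S) →
    (RelMap R (h ∘ x) ↔ RelMap R x)

/-- the embedding given by a partial isomorphism -/
def PIso.emb {S : Set M} {h : M → N} (hg : PIso L S h) : (subOf S : L.Substructure M) ↪[L] N where
  toFun x := h x
  inj' x y hxy := Subtype.ext (hg.1 x x.2 y y.2 hxy)
  map_fun' f := isEmptyElim f
  map_rel' R x := hg.2 _ R (fun i => (x i : M)) fun i => (x i).2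

theorem PIso.emb_apply {S : Set M} {h : M → N} (hg : PIso L S h)
    (x : (subOf S : L.Substructure M)) : hg.emb x = h x := rfl

theorem ultra_of_good [Countable M] [DecidableEq M]
    (E : ∀ (S : Finset M) (h : M → M), PIso L (S : Set M) h → ∀ m ∉ S,
      ∃ m', PIso L (insert m (S : Set M)) (update h m m')) :
    L.IsUltrahomogeneous M := by
  classical
  rw [isUltrahomogeneous_iff_IsExtensionPair cg_of_countable]
  intro f m
  by_cases hm : m ∈ f.1.dom
  · exact ⟨f, hm, le_rfl⟩
  have hfin : Finite f.1.dom := Substructure.fg_iff_finite.1 f.2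
  have hfin' : (f.1.dom : Set M).Finite := hfin
  let S : Finset M := hfin'.toFinset
  have hS : ∀ x, x ∈ S ↔ x ∈ f.1.dom := fun x => by simp [S]
  let h : M → M := fun x => if hx : x ∈ f.1.dom then f.1.toEquiv ⟨x, hx⟩ else x
  have hh : ∀ (x : M) (hx : x ∈ f.1.dom), h x = f.1.toEquiv ⟨x, hx⟩ := fun x hx => dif_pos hx
  have hgood : PIso L (S : Set M) h := by
    constructor
    · intro x hx y hy hxy
      have hx' := (hS x).1 hx
      have hy' := (hS y).1 hy
      rw [hh x hx', hh y hy'] at hxy
      have := f.1.toEquiv.injective (Subtype.ext hxy)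
      exact congrArg Subtype.val this
    · intro n R x hx
      have hx' : ∀ i, x i ∈ f.1.dom := fun i => (hS _).1 (hx i)
      have h1 := f.1.toEquiv.map_rel R (fun i => (⟨x i, hx' i⟩ : f.1.dom))
      have h2 : h ∘ x = fun i => (f.1.toEquiv (⟨x i, hx' i⟩ : f.1.dom) : M) := by
        funext i
        exact hh _ _
      rw [h2]
      exact h1
  obtain ⟨m', hm'⟩ := E S h hgood m fun hc => hm ((hS m).1 hc)
  have hfg : (subOf (insert m (S : Set M)) : L.Substructure M).FG := by
    rw [Substructure.fg_iff_finite]
    exact ((Finset.finite_toSet S).insert m).to_subtype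
  refine ⟨⟨⟨subOf (insert m (S : Set M)), hm'.emb.toHom.range, hm'.emb.equivRange⟩, hfg⟩,
    Set.mem_insert _ _, ?_, ?_⟩
  · intro x hx
    exact Set.mem_insert_of_mem _ ((hS x).2 hx)
  · ext x
    have hxm : (x : M) ≠ m := fun hc => hm (hc ▸ x.2)
    show hm'.emb _ = (f.1.toEquiv x : M)
    rw [PIso.emb_apply]
    show update h m m' (x : M) = _
    rw [update_of_ne hxm]
    exact hh _ x.2

end Ultra

end Pool.Agent.KS6_38.HG
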