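import Pool.Agent.KS6_38.HG.Defs
import Pool.Agent.KS6_38.HG.Ultra
import Pool.Agent.KS6_38.HG.PE

/-!
# Ramsey expansions of generic `k`-hypertournaments: the proof
-/

set_option autoImplicit false

namespace Pool.Agent.KS6_38.HG

open FirstOrder Language Structure CategoryTheory

variable {k : ℕ}

instance (k : ℕ) : (LR k).IsRelational := fun _ => inferInstanceAs (IsEmpty Empty)

instance (k : ℕ) : (LRlt k).IsRelational := fun _ => inferInstanceAs (IsEmpty Empty)

theorem vec2 {α : Type} (x : Fin 2 → α) : x = ![x 0, x 1] := by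
  funext i
  fin_cases i <;> rfl

/-- the `{R}`-structure given by a `k`-ary relation -/
@[instance_reducible]
def strR {V : Type} (s : Str k V) : (LR k).Structure V where
  funMap := fun f => f.elim
  RelMap := fun r => Sym.rec (motive := fun n _ => (Fin n → V) → Prop) s.r r

/-- the `{R, <}`-structure given by a `k`-ary and a binary relation -/
@[instance_reducible]
def strLt {V : Type} (s : Str k V) : (LRlt k).Structure V where
  funMap := fun f => f.elim
  RelMap := fun r => SymLt.rec (motive := fun n _ => (Fin n → V) → Prop) s.r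
    (fun x => s.lt (x 0) (x 1)) r

/-- the relations of a `{R}`-structure (the order is irrelevant) -/
def ofR (k : ℕ) (M : Type) [(LR k).Structure M] : Str k M := ⟨HoldsR k M, fun _ _ => False⟩

/-- the relations of a `{R, <}`-structure -/
def ofLt (k : ℕ) (M : Type) [(LRlt k).Structure M] : Str k M :=
  ⟨fun x => RelMap (L := LRlt k) SymLt.R x, fun x y => RelMap (L := LRlt k) SymLt.lt ![x, y]⟩

theorem good_R {M N : Type} [(LR k).Structure M] [(LR k).Structure N] (S : Set M) (h : M → N) :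
    PIso (LR k) S h ↔ PE False (ofR k M) (ofR k N) S h := by
  constructor
  · rintro ⟨h1, h2⟩
    exact ⟨h1, fun x hx => h2 k Sym.R x hx, fun hf => hf.elim⟩
  · rintro ⟨h1, h2, -⟩
    refine ⟨h1, fun n r x hx => ?_⟩
    match n, r, x, hx with
    | _, Sym.R, x, hx => exact h2 x hx

theorem good_Lt {M N : Type} [(LRlt k).Structure M] [(LRlt k).Structure N] (S : Set M)
    (h : M → N) : PIso (LRlt k) S h ↔ PE True (ofLt k M) (ofLt k N) S h := by
  constructor
  · rintro ⟨h1, h2⟩
    refine ⟨h1, fun x hx => h2 k SymLt.R x hx, fun _ x hx y hy => ?_⟩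
    have h3 := h2 2 SymLt.lt ![x, y] (by
      intro i
      fin_cases i
      · exact hx
      · exact hy)
    rw [vec2 (h ∘ ![x, y])] at h3
    exact h3
  · rintro ⟨h1, h2, h3⟩
    refine ⟨h1, fun n r x hx => ?_⟩
    match n, r, x, hx with
    | _, SymLt.R, x, hx => exact h2 x hx
    | _, SymLt.lt, x, hx =>
      have h4 := h3 trivial (x 0) (hx 0) (x 1) (hx 1)
      rw [vec2 x, vec2 (h ∘ ![x 0, x 1])]
      exact h4

/-- embeddings of relational structures as partial isomorphisms with full domain -/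
theorem good_of_emb {L : FirstOrder.Language.{0, 0}} {M N : Type} [L.Structure M] [L.Structure N]
    (e : M ↪[L] N) : PIso L Set.univ (e : M → N) :=
  ⟨fun _ _ _ _ h => e.injective h, fun _ R x _ => e.map_rel R x⟩

theorem emb_of_good {L : FirstOrder.Language.{0, 0}} [L.IsRelational] {M N : Type} [L.Structure M]
    [L.Structure N] {h : M → N} (hg : PIso L Set.univ h) : ∃ e : M ↪[L] N, ∀ x, e x = h x :=
  ⟨{ toFun := h
     inj' := fun x y hxy => hg.1 x trivial y trivial hxy
     map_fun' := fun f => isEmptyElim f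
     map_rel' := fun R x => hg.2 _ R x fun _ => trivial }, fun _ => rfl⟩

/-- the family as a family of relations -/
def fam (𝓕 : Set (Bundled.{0} (LR k).Structure)) : Fam k :=
  {G | ∃ F ∈ 𝓕, G = ⟨F, HoldsR k F⟩}

theorem good_fam {𝓕 : Set (Bundled.{0} (LR k).Structure)} (h : PairwiseUnbalanced k 𝓕) :
    Good (fam 𝓕) := by
  rintro _ ⟨F, hF, rfl⟩
  exact h F hF

theorem free_iff {𝓕 : Set (Bundled.{0} (LR k).Structure)} {M : Type} [(LR k).Structure M] :
    (∀ F ∈ 𝓕, IsEmpty (F ↪[LR k] M)) ↔ Free (fam 𝓕) (HoldsR k M) := by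
  constructor
  · rintro h _ ⟨F, hF, rfl⟩ e he
    have hg : PIso (LR k) Set.univ (e : F → M) := by
      refine (good_R _ _).2 ⟨fun x _ y _ hxy => he.1 hxy, fun x _ => he.2 x, fun hf => hf.elim⟩
    obtain ⟨e', -⟩ := emb_of_good hg
    exact (h F hF).elim e'
  · intro h F hF
    refine ⟨fun e => ?_⟩
    have hg := (good_R _ _).1 (good_of_emb e)
    exact h _ ⟨F, hF, rfl⟩ e ⟨e.injective, fun x => hg.r x fun _ => trivial⟩

/-- the axioms pass to substructures -/
theorem oh_of_pe {𝓕 : Fam k} {U V : Type} {u : Str k U} {s : Str k V} (hs : s.OH 𝓕) {h : U → V}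
    (hh : PE True u s Set.univ h) : u.OH 𝓕 := by
  have h1 : u = s.comap h := by
    ext x y
    · exact (hh.r x fun _ => trivial).symm
    · exact (hh.lt trivial x trivial y trivial).symm
  rw [h1]
  exact hs.comap fun x y hxy => hh.inj x trivial y trivial hxy

/-- increasing enumerations -/
theorem exists_enum {𝓕 : Fam k} {U : Type} [Finite U] {u : Str k U} (hu : u.OH 𝓕) :
    ∃ (m : ℕ) (e : Fin m ≃ U), ∀ x y, u.lt (e x) (e y) ↔ x < y := by
  let lo : LinearOrder U := mkLO u.lt hu.irr hu.tr hu.tri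
  have := Fintype.ofFinite U
  let e : Fin (Fintype.card U) ≃o U := Fintype.orderIsoFinOfCardEq U rfl
  exact ⟨_, e.toEquiv, fun x y => e.lt_iff_lt⟩

theorem ultra_transfer {L : FirstOrder.Language.{0, 0}} {M N : Type} [L.Structure M]
    [L.Structure N] (e : M ≃[L] N) (h : L.IsUltrahomogeneous N) : L.IsUltrahomogeneous M := by
  intro S hS f
  obtain ⟨g, hg⟩ := h (S.map e.toHom) (hS.map _)
    ((e.toEmbedding.comp f).comp (e.toEmbedding.substructureEquivMap S).symm.toEmbedding)
  refine ⟨e.symm.comp (g.comp e), ?_⟩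
  ext x
  have h1 : e (f ((e.toEmbedding.substructureEquivMap S).symm
      (e.toEmbedding.substructureEquivMap S x))) = g (e x) :=
    congrArg (fun k : _ ↪[L] N => k (e.toEmbedding.substructureEquivMap S x)) hg
  rw [FirstOrder.Language.Equiv.symm_apply_apply] at h1
  show f x = e.symm (g (e x))
  rw [← h1, FirstOrder.Language.Equiv.symm_apply_apply]

/-- The age of the generic structure with the order has the Ramsey property. -/
theorem ramsey_generic (hk : 3 ≤ k) {𝓕 : Fam k} (h𝓕 : Good 𝓕) {s : Str k ℕ} (hs : s.OH 𝓕)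
    (hep : EP 𝓕 s) : RamseyProperty (@age (LRlt k) ℕ (strLt s)) := by
  classical
  let _ := strLt s
  intro A hA B hB l hl
  obtain ⟨hAfg, ⟨iA⟩⟩ := hA
  obtain ⟨hBfg, ⟨iB⟩⟩ := hB
  have hAfin : Finite A := Structure.fg_iff_finite.1 hAfg
  have hBfin : Finite B := Structure.fg_iff_finite.1 hBfg
  have hAoh : (ofLt k A).OH 𝓕 :=
    oh_of_pe (s := s) hs ((good_Lt _ _).1 (good_of_emb iA))
  have hBoh : (ofLt k B).OH 𝓕 :=
    oh_of_pe (s := s) hs ((good_Lt _ _).1 (good_of_emb iB))
  obtain ⟨m, eA, heA⟩ := exists_enum hAoh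
  obtain ⟨n, eB, heB⟩ := exists_enum hBoh
  have hA' := hAoh.comap eA.injective
  have hB' := hBoh.comap eB.injective
  have : Nonempty (Fin l) := ⟨⟨0, hl⟩⟩
  obtain ⟨V, _, _, r, hr, hfree, hArr⟩ := step2 hk h𝓕 hA'.ht hB'.ht hA'.free hB'.free (Fin l)
  let sV : Str k V := ⟨r, fun x y => x < y⟩
  have hV : sV.OH 𝓕 := ⟨hr, hfree, fun x => lt_irrefl x, fun x y z => lt_trans,
    fun x y => lt_or_gt_of_ne⟩
  let _ := strLt sV
  refine ⟨⟨V, strLt sV⟩, ⟨?_, ?_⟩, ?_⟩
  · exact Structure.fg_iff_finite.2 inferInstance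
  · obtain ⟨h, hh⟩ := exists_embed (by omega : 0 < k) hs hep (hV.uok True)
    obtain ⟨e, -⟩ := emb_of_good ((good_Lt (M := V) (N := ℕ) Set.univ h).2 hh)
    exact ⟨e⟩
  · intro χ
    change {A' : (LRlt k).Substructure V // Nonempty (A ≃[LRlt k] A')} → Fin l at χ
    let sub : Finset V → (LRlt k).Substructure V := fun F => subOf (F : Set V)
    let χ' : Finset V → Fin l := fun F =>
      if h : Nonempty (A ≃[LRlt k] sub F) then χ ⟨sub F, h⟩ else ⟨0, hl⟩
    have hχ' : ∀ (F : Finset V) (S : {A' : (LRlt k).Substructure V // Nonempty (A ≃[LRlt k] A')}),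
        sub F = S.1 → χ' F = χ S := by
      rintro F ⟨S, hS⟩ h
      subst h
      exact dif_pos hS
    obtain ⟨b, hb, c, hc⟩ := hArr χ'
    have hbE := hb.emb hB'.ht hr
    -- the copy of `B`
    have hβ : PE True (ofLt k B) sV Set.univ fun y => b (eB.symm y) := by
      refine ⟨?_, ?_, ?_⟩
      · intro x _ y _ hxy
        exact eB.symm.injective (b.injective hxy)
      · intro x _
        have h1 := hbE.2 (eB.symm ∘ x)
        have h2 : eB ∘ (eB.symm ∘ x) = x := by
          funext i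
          simp
        have h3 : ((ofLt k B).comap eB).r (eB.symm ∘ x) ↔ (ofLt k B).r x := by
          show (ofLt k B).r (eB ∘ (eB.symm ∘ x)) ↔ _
          rw [h2]
        exact h1.trans h3
      · intro _ x _ y _
        have h1 := heB (eB.symm x) (eB.symm y)
        rw [Equiv.apply_symm_apply, Equiv.apply_symm_apply] at h1
        rw [h1]
        exact b.lt_iff_lt
    obtain ⟨β, hβ'⟩ := emb_of_good ((good_Lt (M := B) (N := V) Set.univ _).2 hβ)
    refine ⟨β.toHom.range, ⟨β.equivRange⟩, ?_⟩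
    have main : ∀ A₁ : {A' : (LRlt k).Substructure V // Nonempty (A ≃[LRlt k] A')},
        A₁.1 ≤ β.toHom.range → χ A₁ = c := by
      intro A₁ hle
      obtain ⟨φ⟩ := A₁.2
      have hφ := (good_Lt (M := A) (N := V) Set.univ _).1
        (good_of_emb (A₁.1.subtype.comp φ.toEmbedding))
      have hφa : ∀ x, (A₁.1.subtype.comp φ.toEmbedding) x = (φ x : V) := fun x => rfl
      have hex : ∀ i : Fin m, ∃ j : Fin n, b j = (φ (eA i) : V) := by
        intro i
        obtain ⟨y, hy⟩ := hle (φ (eA i)).2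
        refine ⟨eB.symm y, ?_⟩
        rw [← hβ' y]
        exact hy
      choose j hj using hex
      have hmono : StrictMono j := by
        intro i i' hii'
        have h1 := (hφ.lt trivial (eA i) trivial (eA i') trivial).2 ((heA i i').2 hii')
        rw [hφa, hφa, ← hj, ← hj] at h1
        exact b.lt_iff_lt.1 h1
      let a : Fin m ↪o Fin n := OrderEmbedding.ofStrictMono j hmono
      have ha : Pres (((ofLt k A).comap eA).r) (((ofLt k B).comap eB).r) a := by
        intro x hx
        have h1 := hφ.r (eA ∘ x) fun _ => trivial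
        have h2 : (A₁.1.subtype.comp φ.toEmbedding) ∘ (eA ∘ x) = b ∘ (j ∘ x) := by
          funext i
          exact (hj (x i)).symm
        rw [h2] at h1
        exact (hbE.2 (j ∘ x)).symm.trans h1
      rw [← hc a ha]
      refine (hχ' _ A₁ ?_).symm
      ext x
      constructor
      · intro hx
        have hx' : x ∈ img (a.trans b) := hx
        obtain ⟨i, rfl⟩ := mem_img.1 hx'
        have h1 : (a.trans b) i = (φ (eA i) : V) := hj i
        rw [h1]
        exact (φ (eA i)).2
      · intro hx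
        show x ∈ img (a.trans b)
        refine mem_img.2 ⟨eA.symm (φ.symm ⟨x, hx⟩), ?_⟩
        have h1 : (a.trans b) (eA.symm (φ.symm ⟨x, hx⟩)) =
            (φ (eA (eA.symm (φ.symm ⟨x, hx⟩))) : V) := hj _
        rw [h1, Equiv.apply_symm_apply, FirstOrder.Language.Equiv.apply_symm_apply]
    intro A₁ A₂ h1 h2
    rw [main A₁ h1, main A₂ h2]

/-- The `{R}`-reduct of the generic structure is ultrahomogeneous. -/
theorem ultra_R {𝓕 : Fam k} {s : Str k ℕ} (hs : s.OH 𝓕) (hep : EP 𝓕 s) :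
    @IsUltrahomogeneous (LR k) ℕ (strR s) := by
  let _ := strR s
  refine ultra_of_good fun S h hg m hm => ?_
  have hu : UOK False 𝓕 (ofR k ℕ) :=
    ⟨hs.ht, hs.free, fun h => h.elim, fun h => h.elim, fun h => h.elim⟩
  have h1 := (good_R _ _).1 hg
  have h2 : PE False (ofR k ℕ) s (S : Set ℕ) h := ⟨h1.inj, h1.r, fun h => h.elim⟩
  obtain ⟨v, hv⟩ := h2.extend hs hep hu hm
  exact ⟨v, (good_R _ _).2 ⟨hv.inj, hv.r, fun h => h.elim⟩⟩

/-- The generic structure is ultrahomogeneous. -/
theorem ultra_Lt {𝓕 : Fam k} {s : Str k ℕ} (hs : s.OH 𝓕) (hep : EP 𝓕 s) :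
    @IsUltrahomogeneous (LRlt k) ℕ (strLt s) := by
  let _ := strLt s
  refine ultra_of_good fun S h hg m hm => ?_
  have h1 : PE True s s (S : Set ℕ) h := (good_Lt _ _).1 hg
  obtain ⟨v, hv⟩ := h1.extend hs hep (hs.uok True) hm
  exact ⟨v, (good_Lt (M := ℕ) (N := ℕ) _ _).2 hv⟩

/-- The age of the `{R}`-reduct of the generic structure. -/
theorem age_R (hk : 3 ≤ k) {𝓕 : Set (Bundled.{0} (LR k).Structure)} {s : Str k ℕ}
    (hs : s.OH (fam 𝓕)) (hep : EP (fam 𝓕) s) : @age (LR k) ℕ (strR s) = Forb k 𝓕 := by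
  let _ := strR s
  have hfree : ∀ F ∈ 𝓕, IsEmpty (F ↪[LR k] ℕ) := free_iff.2 hs.free
  ext A
  constructor
  · rintro ⟨hfg, ⟨e⟩⟩
    have hg := (good_R _ _).1 (good_of_emb e)
    refine ⟨Structure.fg_iff_finite.1 hfg, ?_, fun F hF => ⟨fun i => (hfree F hF).elim (e.comp i)⟩⟩
    have hE : Emb (HoldsR k A) s.r e := ⟨e.injective, fun x => hg.r x fun _ => trivial⟩
    exact hE.ht hs.ht
  · rintro ⟨hfin, hyp, hf⟩
    refine ⟨Structure.fg_iff_finite.2 hfin, ?_⟩
    have hu : UOK False (fam 𝓕) (ofR k A) := ⟨hyp, free_iff.1 hf, fun h => h.elim,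
      fun h => h.elim, fun h => h.elim⟩
    obtain ⟨h, hh⟩ := exists_embed (by omega : 0 < k) hs hep hu
    obtain ⟨e, -⟩ := emb_of_good ((good_R (M := A) (N := ℕ) Set.univ h).2
      ⟨hh.inj, hh.r, fun h => h.elim⟩)
    exact ⟨e⟩

theorem isFraisseLimit_R (hk : 3 ≤ k) {𝓕 : Set (Bundled.{0} (LR k).Structure)} {s : Str k ℕ}
    (hs : s.OH (fam 𝓕)) (hep : EP (fam 𝓕) s) :
    @IsFraisseLimit (LR k) (Forb k 𝓕) ℕ (strR s) _ _ :=
  let _ := strR s
  ⟨ultra_R hs hep, age_R hk hs hep⟩

theorem finite_LRlt (k : ℕ) : Finite (Σ n, (LRlt k).Relations n) := by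
  refine Finite.of_surjective (fun b : Bool =>
    (if b then ⟨k, SymLt.R⟩ else ⟨2, SymLt.lt⟩ : Σ n, (LRlt k).Relations n)) ?_
  rintro ⟨n, r⟩
  match n, r with
  | _, SymLt.R => exact ⟨true, rfl⟩
  | _, SymLt.lt => exact ⟨false, rfl⟩

end Pool.Agent.KS6_38.HG
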