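import Mathlib

/-!
# `k`-hypertournaments: signs, faces of a `(k+1)`-tuple

A `k`-hypertournament is a `k`-ary relation `r` which holds only on injective tuples and, on the
orderings of a set of `k` elements, exactly on one of the two parity classes.
-/

set_option autoImplicit false

namespace Pool.Agent.KS6_38.HG

open Finset Function Equiv

variable {k : ℕ} {U V : Type}

/-- The axioms of `k`-hypertournaments. -/
structure HT (r : (Fin k → V) → Prop) : Prop where
  inj : ∀ x, r x → Injective x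
  perm : ∀ x, Injective x → ∀ σ : Perm (Fin k), (r (x ∘ σ) ↔ (r x ↔ Perm.sign σ = 1))

theorem sign_eq (n : ℕ) (σ : Perm (Fin n)) : Perm.sign σ = 1 ∨ Perm.sign σ = -1 :=
  Int.units_eq_one_or _

theorem neg_one_ne_one : (-1 : ℤˣ) ≠ 1 := by decide

/-- Removing an entry of a permutation. -/
theorem sgn (τ : Perm (Fin (k + 1))) (i : Fin (k + 1)) : ∃ τ' : Perm (Fin k),
    (∀ m, τ (i.succAbove m) = (τ i).succAbove (τ' m)) ∧
      Perm.sign τ' = Perm.sign τ * (-1) ^ ((i : ℕ) + (τ i : ℕ)) := by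
  let π : Perm (Fin (k + 1)) := (τ i).cycleRange * τ * i.cycleRange⁻¹
  have h0 : π 0 = 0 := by
    show (τ i).cycleRange (τ (i.cycleRange.symm 0)) = 0
    rw [Fin.cycleRange_symm_zero, Fin.cycleRange_self]
  obtain ⟨p, τ', hπ⟩ : ∃ p τ', π = Perm.decomposeFin.symm (p, τ') :=
    ⟨(Perm.decomposeFin π).1, (Perm.decomposeFin π).2, by simp⟩
  have hp : p = 0 := by
    rw [hπ] at h0
    simpa using h0
  subst hp
  refine ⟨τ', fun m => ?_, ?_⟩
  · have h1 : π m.succ = (τ' m).succ := by
      rw [hπ, Perm.decomposeFin_symm_apply_succ]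
      simp
    have h2 : (τ i).cycleRange (τ (i.succAbove m)) = (τ' m).succ := by
      rw [← h1]
      show _ = (τ i).cycleRange (τ (i.cycleRange.symm m.succ))
      rw [Fin.cycleRange_symm_succ]
    rw [← Fin.cycleRange_symm_succ (τ i), ← h2, Equiv.symm_apply_apply]
  · have h1 : Perm.sign π = Perm.sign τ' := by
      rw [hπ, Perm.decomposeFin.symm_sign]
      simp
    rw [← h1]
    simp only [π, Perm.sign_mul, Perm.sign_inv, Fin.sign_cycleRange]
    rw [pow_add]
    ac_rfl

theorem pow_sign (n : ℕ) : ((-1 : ℤˣ) ^ n = 1) ↔ Even n := by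
  constructor
  · intro h
    by_contra hn
    rw [Nat.not_even_iff_odd] at hn
    rw [hn.neg_one_pow] at h
    exact neg_one_ne_one h
  · exact fun h => h.neg_one_pow

/-- The faces of the `(k+1)`-tuple `y` which have the orientation induced by `y`. -/
def pos (r : (Fin k → V) → Prop) (y : Fin (k + 1) → V) : Set (Fin (k + 1)) :=
  {i | r (y ∘ i.succAbove) ↔ Even (i : ℕ)}

/-- At most `j` of the faces, or all but at most `j` of them, have the orientation induced by `y`,
where `2 j + 3 ≤ k`. -/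
def Unbal (r : (Fin k → V) → Prop) (y : Fin (k + 1) → V) : Prop :=
  2 * (pos r y).ncard + 3 ≤ k ∨ 2 * (pos r y)ᶜ.ncard + 3 ≤ k

theorem pos_perm {r : (Fin k → V) → Prop} (hr : HT r) {y : Fin (k + 1) → V} (hy : Injective y)
    (τ : Perm (Fin (k + 1))) (i : Fin (k + 1)) :
    i ∈ pos r (y ∘ τ) ↔ (τ i ∈ pos r y ↔ Perm.sign τ = 1) := by
  obtain ⟨τ', h1, h2⟩ := sgn τ i
  have h3 : (y ∘ τ) ∘ i.succAbove = (y ∘ (τ i).succAbove) ∘ τ' := by
    funext m
    simp only [comp_apply]
    rw [h1]
  have h4 : (r ((y ∘ τ) ∘ i.succAbove) ↔ (r (y ∘ (τ i).succAbove) ↔ Perm.sign τ' = 1)) := by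
    rw [h3]
    exact hr.perm _ (hy.comp Fin.succAbove_right_injective) τ'
  have h5 : Perm.sign τ' = 1 ↔ (Perm.sign τ = 1 ↔ (Even (i : ℕ) ↔ Even (τ i : ℕ))) := by
    rw [h2]
    rcases sign_eq _ τ with h | h
    · rw [h, one_mul, pow_sign, Nat.even_add]
      simp
    · rw [h, neg_one_mul, neg_eq_iff_eq_neg, ← Nat.even_add]
      constructor
      · intro h6
        have : ¬ Even ((i : ℕ) + (τ i : ℕ)) := fun h7 => by
          rw [h7.neg_one_pow] at h6
          exact neg_one_ne_one h6.symm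
        simp [this]
      · intro h6
        have h7 : ¬ Even ((i : ℕ) + (τ i : ℕ)) := by simpa using h6
        rw [Nat.not_even_iff_odd] at h7
        exact h7.neg_one_pow
  show (r ((y ∘ τ) ∘ i.succAbove) ↔ Even (i : ℕ)) ↔
    ((r (y ∘ (τ i).succAbove) ↔ Even (τ i : ℕ)) ↔ Perm.sign τ = 1)
  rw [h4, h5]
  tauto

theorem unbal_perm {r : (Fin k → V) → Prop} (hr : HT r) {y : Fin (k + 1) → V} (hy : Injective y)
    (τ : Perm (Fin (k + 1))) (h : Unbal r y) : Unbal r (y ∘ τ) := by
  have h1 := pos_perm hr hy τ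
  rcases sign_eq _ τ with hs | hs
  · have h2 : pos r (y ∘ τ) = τ ⁻¹' pos r y := by
      ext i
      rw [h1, hs]
      simp
    have h3 : (pos r (y ∘ τ))ᶜ = τ ⁻¹' (pos r y)ᶜ := by
      rw [h2]
      rfl
    unfold Unbal
    rw [h3, h2, Set.ncard_preimage_of_injective_subset_range τ.injective (by simp),
      Set.ncard_preimage_of_injective_subset_range τ.injective (by simp)]
    exact h
  · have h2 : pos r (y ∘ τ) = τ ⁻¹' (pos r y)ᶜ := by
      ext i
      rw [h1, hs]
      simp [neg_one_ne_one]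
    have h3 : (pos r (y ∘ τ))ᶜ = τ ⁻¹' (pos r y) := by
      rw [h2, ← Set.preimage_compl, compl_compl]
    unfold Unbal
    rw [h3, h2, Set.ncard_preimage_of_injective_subset_range τ.injective (by simp),
      Set.ncard_preimage_of_injective_subset_range τ.injective (by simp)]
    exact h.symm

/-- `U` embeds in `V` by `e`. -/
def Emb (q : (Fin k → U) → Prop) (r : (Fin k → V) → Prop) (e : U → V) : Prop :=
  Injective e ∧ ∀ x, (r (e ∘ x) ↔ q x)

theorem Emb.ht {q : (Fin k → U) → Prop} {r : (Fin k → V) → Prop} {e : U → V} (h : Emb q r e)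
    (hr : HT r) : HT q where
  inj x hx := by
    have h1 := hr.inj _ ((h.2 x).2 hx)
    exact h1.of_comp
  perm x hx σ := by
    rw [← h.2, ← h.2, ← comp_assoc]
    exact hr.perm _ (h.1.comp hx) σ

theorem Emb.unbal {q : (Fin k → U) → Prop} {r : (Fin k → V) → Prop} {e : U → V} (h : Emb q r e)
    {y : Fin (k + 1) → U} (hy : Unbal q y) : Unbal r (e ∘ y) := by
  have h1 : pos r (e ∘ y) = pos q y := by
    ext i
    show (r ((e ∘ y) ∘ i.succAbove) ↔ _) ↔ (q (y ∘ i.succAbove) ↔ _)
    rw [comp_assoc, h.2]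
  unfold Unbal
  rw [h1]
  exact hy

section Srt

variable [LinearOrder V]

/-- The relation coded by the values of `g` on the increasing tuples. -/
def rOf (g : (Fin k → V) → Prop) (x : Fin k → V) : Prop :=
  Injective x ∧ (g (x ∘ Tuple.sort x) ↔ Perm.sign (Tuple.sort x) = 1)

theorem strictMono_sort {x : Fin k → V} (hx : Injective x) : StrictMono (x ∘ Tuple.sort x) :=
  (Tuple.monotone_sort x).strictMono_of_injective (hx.comp (Tuple.sort x).injective)

theorem sort_mono {x : Fin k → V} (hx : StrictMono x) : Tuple.sort x = 1 :=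
  Tuple.sort_eq_refl_iff_monotone.2 hx.monotone

theorem rOf_mono {g : (Fin k → V) → Prop} {x : Fin k → V} (hx : StrictMono x) :
    rOf g x ↔ g x := by
  unfold rOf
  rw [sort_mono hx]
  simp [hx.injective]

theorem sort_perm' {x : Fin k → V} (hx : Injective x) (σ : Perm (Fin k)) :
    Tuple.sort (x ∘ σ) = σ⁻¹ * Tuple.sort x := by
  have h1 : (x ∘ σ) ∘ Tuple.sort (x ∘ σ) = x ∘ Tuple.sort x := Tuple.comp_perm_comp_sort_eq_comp_sort
  ext i
  have h2 := hx (congrFun h1 i)
  simp only [Perm.coe_mul, comp_apply]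
  rw [← h2]
  simp

theorem rOf_HT (g : (Fin k → V) → Prop) : HT (rOf g) where
  inj x hx := hx.1
  perm x hx σ := by
    unfold rOf
    have h1 : (x ∘ σ) ∘ Tuple.sort (x ∘ σ) = x ∘ Tuple.sort x :=
      Tuple.comp_perm_comp_sort_eq_comp_sort
    rw [h1, sort_perm' hx, Perm.sign_mul, Perm.sign_inv]
    have h2 : Injective (x ∘ σ) := hx.comp σ.injective
    rcases sign_eq _ σ with h | h <;> rcases sign_eq _ (Tuple.sort x) with h' | h' <;>
      simp [h, h', hx, h2, neg_one_ne_one]

/-- Two relations of `k`-hypertournaments which agree on increasing tuples are equal. -/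
theorem HT.ext {r s : (Fin k → V) → Prop} (hr : HT r) (hs : HT s)
    (h : ∀ x, StrictMono x → (r x ↔ s x)) (x : Fin k → V) : r x ↔ s x := by
  by_cases hx : Injective x
  · have h1 := hr.perm x hx (Tuple.sort x)
    have h2 := hs.perm x hx (Tuple.sort x)
    have h3 := h _ (strictMono_sort hx)
    rw [h1, h2] at h3
    by_cases h4 : Perm.sign (Tuple.sort x) = 1
    · simpa [h4] using h3
    · simp only [h4, iff_false] at h3
      exact not_iff_not.1 h3
  · exact iff_of_false (fun h' => hx (hr.inj x h')) fun h' => hx (hs.inj x h')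

end Srt

end Pool.Agent.KS6_38.HG
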