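import Pool.Agent.KS6_38.HG.Core
import Pool.Agent.KS6_38.HG.Comp

/-!
# The Ramsey property of the linearly ordered `k`-hypertournaments omitting a family
-/

set_option autoImplicit false

namespace Pool.Agent.KS6_38.HG

open Finset Function Equiv

variable {k : ℕ} {U V : Type}

/-- A family of structures with one `k`-ary relation. -/
abbrev Fam (k : ℕ) : Type 1 := Set (Σ U : Type, (Fin k → U) → Prop)

/-- No member of the family embeds. -/
def Free (𝓕 : Fam k) (r : (Fin k → V) → Prop) : Prop :=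
  ∀ F ∈ 𝓕, ∀ e : F.1 → V, ¬ Emb F.2 r e

/-- In each member of the family any two points lie in an unbalanced `(k+1)`-tuple. -/
def Good (𝓕 : Fam k) : Prop :=
  ∀ F ∈ 𝓕, Finite F.1 ∧ Nontrivial F.1 ∧ ∀ u v : F.1, u ≠ v →
    ∃ y : Fin (k + 1) → F.1, Injective y ∧ Unbal F.2 y ∧ u ∈ Set.range y ∧ v ∈ Set.range y

theorem HT.comap {r : (Fin k → V) → Prop} (hr : HT r) {e : U → V} (he : Injective e) :
    HT fun x : Fin k → U => r (e ∘ x) where
  inj x hx := (hr.inj _ hx).of_comp
  perm x hx σ := hr.perm _ (he.comp hx) σ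

theorem Free.comap {𝓕 : Fam k} {r : (Fin k → V) → Prop} (hr : Free 𝓕 r) {e : U → V}
    (he : Injective e) : Free 𝓕 fun x : Fin k → U => r (e ∘ x) := by
  intro F hF e' h
  exact hr F hF (e ∘ e') ⟨he.comp h.1, fun x => h.2 x⟩

/-- the embeddings of the members of a good family in a completion go into cliques -/
theorem clique_of_emb {𝓕 : Fam k} (h𝓕 : Good 𝓕) {r : (Fin k → V) → Prop} {G : V → V → Prop}
    (hc : ∀ y : Fin (k + 1) → V, Injective y → Unbal r y → Clq G y) {F : Σ U : Type, (Fin k → U) → Prop}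
    (hF : F ∈ 𝓕) {e : F.1 → V} (he : Emb F.2 r e) {u v : F.1} (huv : u ≠ v) : G (e u) (e v) := by
  obtain ⟨_, _, h1⟩ := h𝓕 F hF
  obtain ⟨y, hy, hu, ⟨i, rfl⟩, ⟨j, rfl⟩⟩ := h1 u v huv
  exact hc (e ∘ y) (he.1.comp hy) (he.unbal hu) i j fun h => huv (congrArg y h)

/-- `b` preserves the relation on increasing tuples -/
def Pres {n : ℕ} [LinearOrder V] (rB : (Fin k → Fin n) → Prop) (r : (Fin k → V) → Prop)
    (b : Fin n ↪o V) : Prop :=
  ∀ x : Fin k → Fin n, StrictMono x → (r (b ∘ x) ↔ rB x)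

/-- The partition arrow, for colourings of sets of vertices. -/
def Arrow {m n : ℕ} [LinearOrder V] (rA : (Fin k → Fin m) → Prop) (rB : (Fin k → Fin n) → Prop)
    (r : (Fin k → V) → Prop) (κ : Type) : Prop :=
  ∀ χ : Finset V → κ, ∃ b : Fin n ↪o V, Pres rB r b ∧
    ∃ c, ∀ a : Fin m ↪o Fin n, Pres rA rB a → χ (img (a.trans b)) = c

theorem Pres.emb {n : ℕ} [LinearOrder V] {rB : (Fin k → Fin n) → Prop} {r : (Fin k → V) → Prop}
    {b : Fin n ↪o V} (h : Pres rB r b) (hB : HT rB) (hr : HT r) : Emb rB r b :=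
  ⟨b.injective, (hr.comap b.injective).ext hB h⟩

theorem mono_image_inj {n : ℕ} [LinearOrder V] {x x' : Fin n → V} (hx : StrictMono x)
    (hx' : StrictMono x') (h : univ.image x = univ.image x') : x = x' := by
  refine (StrictMono.range_inj hx hx').1 ?_
  have := congrArg (fun s : Finset V => (s : Set V)) h
  simpa using this

theorem exists_linearOrder (X : Type) [Finite X] : Nonempty (LinearOrder X) := by
  obtain ⟨n, ⟨e⟩⟩ := Finite.exists_equiv_fin X
  exact ⟨LinearOrder.lift' e e.injective⟩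

/-- The class of all finite linearly ordered `k`-hypertournaments is Ramsey. -/
theorem step1 (hk : 1 ≤ k) {m n : ℕ} (rA : (Fin k → Fin m) → Prop) (rB : (Fin k → Fin n) → Prop)
    (κ : Type) [Finite κ] [Nonempty κ] :
    ∃ (V : Type) (_ : LinearOrder V) (_ : Finite V) (r : (Fin k → V) → Prop),
      HT r ∧ Arrow rA rB r κ := by
  classical
  obtain ⟨N, hN⟩ := ramsey0 m n κ
  obtain ⟨Q, hQ, -⟩ := general (I := Fin N) (Idx := Fin n ↪o Fin N) (κ := κ)
    (fun b => img b)
    (fun b t => ∃ x : Fin k → Fin n, StrictMono x ∧ rB x ∧ t = univ.image (b ∘ x))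
    (fun α t => ∃ a : Fin m ↪o Fin N, img a = α ∧
      ∃ x : Fin k → Fin m, StrictMono x ∧ rA x ∧ t = univ.image (a ∘ x))
    (fun _ => True)
    (fun b α => ∃ a : Fin m ↪o Fin n, Pres rA rB a ∧ α = img (a.trans b))
    (by
      rintro b t ⟨x, _, _, rfl⟩
      exact ⟨b (x ⟨0, hk⟩), Finset.mem_image.2 ⟨_, mem_univ _, rfl⟩⟩)
    (by
      rintro b α ⟨a, ha, rfl⟩
      refine ⟨?_, trivial, ?_⟩
      · intro v hv
        obtain ⟨x, rfl⟩ := mem_img.1 hv
        exact mem_img.2 ⟨a x, rfl⟩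
      · intro t ht
        constructor
        · rintro ⟨x, hx, hr, rfl⟩
          have h1 : ∀ i, ∃ j, a j = x i := by
            intro i
            obtain ⟨j, hj⟩ := mem_img.1 (ht (Finset.mem_image.2 ⟨i, mem_univ _, rfl⟩))
            exact ⟨j, b.injective hj⟩
          choose x' hx' using h1
          have h2 : (a ∘ x' : Fin k → Fin n) = x := funext hx'
          have h3 : StrictMono x' := fun i j hij => by
            have := hx hij
            rw [← hx', ← hx'] at this
            exact a.lt_iff_lt.1 this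
          refine ⟨a.trans b, rfl, x', h3, (ha x' h3).1 (h2 ▸ hr), ?_⟩
          rw [← h2]
          rfl
        · rintro ⟨a', ha', x, hx, hr, rfl⟩
          obtain rfl := img_inj ha'
          exact ⟨a ∘ x, a.strictMono.comp hx, (ha x hx).2 hr, rfl⟩)
    (by
      intro χ
      obtain ⟨b, c, hb⟩ := hN χ
      refine ⟨b, c, ?_⟩
      rintro α ⟨a, _, rfl⟩
      exact hb a)
  have := Q.fin
  obtain ⟨lo⟩ := exists_linearOrder Q.X
  let g : (Fin k → Lex (Fin N × Q.X)) → Prop := fun x => ∃ s : Fin N → Q.X,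
    (∀ i, s (ofLex (x i)).1 = (ofLex (x i)).2) ∧ Q.S (univ.image fun i => (ofLex (x i)).1) s
  refine ⟨Lex (Fin N × Q.X), inferInstance, inferInstanceAs (Finite (Fin N × Q.X)), rOf g,
    rOf_HT g, fun χ => ?_⟩
  obtain ⟨b, s, hs, c, hc⟩ := hQ fun F => χ (F.map toLex.toEmbedding)
  refine ⟨lexEmb b s, ?_, c, fun a ha => ?_⟩
  · intro x hx
    rw [rOf_mono ((lexEmb b s).strictMono.comp hx)]
    have h1 : Q.S (univ.image (b ∘ x)) s ↔ rB x := by
      rw [hs]
      · constructor
        · rintro ⟨x', hx', hr, heq⟩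
          have h2 := mono_image_inj (b.strictMono.comp hx) (b.strictMono.comp hx') heq
          have h3 : x = x' := b.injective.comp_left h2
          rw [h3]
          exact hr
        · intro hr
          exact ⟨x, hx, hr, rfl⟩
      · intro v hv
        obtain ⟨i, _, rfl⟩ := Finset.mem_image.1 hv
        exact mem_img.2 ⟨_, rfl⟩
    rw [← h1]
    constructor
    · rintro ⟨s', h2, h3⟩
      refine Q.loc _ s' s ?_ h3
      intro v hv
      obtain ⟨i, _, rfl⟩ := Finset.mem_image.1 hv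
      exact h2 i
    · intro h
      exact ⟨s, fun i => rfl, h⟩
  · rw [img_lexEmb]
    exact hc _ ⟨a, ha, rfl⟩

/-- The class of the finite linearly ordered `k`-hypertournaments omitting `𝓕` is Ramsey. -/
theorem step2 (hk : 3 ≤ k) {𝓕 : Fam k} (h𝓕 : Good 𝓕) {m n : ℕ} {rA : (Fin k → Fin m) → Prop}
    {rB : (Fin k → Fin n) → Prop} (hA : HT rA) (hB : HT rB) (fA : Free 𝓕 rA) (fB : Free 𝓕 rB)
    (κ : Type) [Finite κ] [Nonempty κ] :
    ∃ (V : Type) (_ : LinearOrder V) (_ : Finite V) (r : (Fin k → V) → Prop),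
      HT r ∧ Free 𝓕 r ∧ Arrow rA rB r κ := by
  classical
  obtain ⟨I, _, _, rI, hrI, hI⟩ := step1 (by omega : 1 ≤ k) rA rB κ
  have hfin : Finite (Fin n ↪o I) := Finite.of_injective (fun b : Fin n ↪o I => (b : Fin n → I))
    DFunLike.coe_injective
  obtain ⟨Q, hQ, hD⟩ := general (I := I) (Idx := {b : Fin n ↪o I // Pres rB rI b}) (κ := κ)
    (fun b => img b.1)
    (fun b t => t.card = 2)
    (fun α t => t.card = 2)
    (fun α => ∃ a : Fin m ↪o I, Pres rA rI a ∧ α = img a)
    (fun b α => ∃ a : Fin m ↪o Fin n, Pres rA rB a ∧ α = img (a.trans b.1))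
    (by
      intro b t ht
      rw [← Finset.card_pos, ht]
      exact two_pos)
    (by
      rintro b α ⟨a, ha, rfl⟩
      refine ⟨?_, ⟨a.trans b.1, ?_, rfl⟩, fun _ _ => Iff.rfl⟩
      · intro v hv
        obtain ⟨x, rfl⟩ := mem_img.1 hv
        exact mem_img.2 ⟨a x, rfl⟩
      · intro x hx
        exact (b.2 _ (a.strictMono.comp hx)).trans (ha x hx))
    (by
      intro χ
      obtain ⟨b, hb, c, hc⟩ := hI χ
      refine ⟨⟨b, hb⟩, c, ?_⟩
      rintro α ⟨a, ha, rfl⟩
      exact hc a ha)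
  -- the members of the family do not embed over a set which comes from `rA` or `rB`
  have hfree : ∀ {l : ℕ} {q : (Fin k → Fin l) → Prop} (b : Fin l ↪o I), HT q → Free 𝓕 q →
      Pres q rI b → ∀ t ⊆ img b, ∀ F ∈ 𝓕, ∀ e : F.1 → I, Emb F.2 rI e → ¬ ∀ u, e u ∈ t := by
    intro l q b hq fq hb t ht F hF e he hall
    have h1 : ∀ u, ∃ j, b j = e u := fun u => mem_img.1 (ht (hall u))
    choose e' he' using h1
    have h2 : b ∘ e' = e := funext he'
    have h3 := hb.emb hq hrI
    refine fq F hF e' ⟨?_, fun x => ?_⟩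
    · have h4 := he.1
      rw [← h2] at h4
      exact h4.of_comp
    · rw [← h3.2, ← he.2, ← h2]
      rfl
  have hDD := hD (fun t => ∀ F ∈ 𝓕, ∀ e : F.1 → I, Emb F.2 rI e → ¬ ∀ u, e u ∈ t)
    (by
      rintro α ⟨a, ha, rfl⟩ t ht
      exact hfree a hA fA ha t ht)
    (by
      rintro ⟨b, hb⟩ t ht
      exact hfree b hB fB hb t ht)
  have := Q.fin
  obtain ⟨lo⟩ := exists_linearOrder Q.X
  -- the graph of the marked pairs
  let G : Lex (I × Q.X) → Lex (I × Q.X) → Prop := fun p q =>
    (ofLex p).1 ≠ (ofLex q).1 ∧ ∃ s : I → Q.X, s (ofLex p).1 = (ofLex p).2 ∧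
      s (ofLex q).1 = (ofLex q).2 ∧ Q.S {(ofLex p).1, (ofLex q).1} s
  have hG : ∀ p q, G p q → G q p := by
    rintro p q ⟨h1, s, h2, h3, h4⟩
    refine ⟨h1.symm, s, h3, h2, ?_⟩
    rw [Finset.pair_comm]
    exact h4
  let r0 : (Fin k → Lex (I × Q.X)) → Prop := fun x => rI fun i => (ofLex (x i)).1
  have hinj : ∀ x : Fin k → Lex (I × Q.X), Clq G x → Injective fun i => (ofLex (x i)).1 := by
    intro x hx i j hij
    by_contra hne
    exact (hx i j hne).1 hij
  obtain ⟨c1, c2, c3⟩ := completion hk hG (r0 := r0) (by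
    intro x _ hc σ
    exact hrI.perm _ (hinj x hc) σ)
  refine ⟨Lex (I × Q.X), inferInstance, inferInstanceAs (Finite (I × Q.X)), rOf (cg G r0), c1, ?_,
    fun χ => ?_⟩
  · intro F hF e he
    obtain ⟨hfinF, hnt, -⟩ := h𝓕 F hF
    have hE : ∀ u v, u ≠ v → G (e u) (e v) := fun u v huv => clique_of_emb h𝓕 c3 hF he huv
    have hinj' : Injective fun u => (ofLex (e u)).1 := by
      intro u v huv
      by_contra hne
      exact (hE u v hne).1 huv
    have hemb : Emb F.2 rI fun u => (ofLex (e u)).1 := by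
      refine ⟨hinj', fun x => ?_⟩
      by_cases hx : Injective x
      · rw [← he.2 x]
        exact (c2 (e ∘ x) (he.1.comp hx) fun i j hij => hE _ _ fun h => hij (hx h)).symm
      · refine iff_of_false (fun h => hx ?_) fun h => hx ?_
        · exact (hrI.inj _ h).of_comp
        · exact (c1.inj _ ((he.2 x).2 h)).of_comp
    have := Fintype.ofFinite F.1
    obtain ⟨u0⟩ : Nonempty F.1 := inferInstance
    let s : I → Q.X := fun v => if h : ∃ u, (ofLex (e u)).1 = v then (ofLex (e h.choose)).2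
      else (ofLex (e u0)).2
    have hs : ∀ u, s (ofLex (e u)).1 = (ofLex (e u)).2 := by
      intro u
      have h : ∃ u', (ofLex (e u')).1 = (ofLex (e u)).1 := ⟨u, rfl⟩
      have h1 : h.choose = u := hinj' h.choose_spec
      simp only [s, dif_pos h]
      rw [h1]
    refine hDD (univ.image fun u => (ofLex (e u)).1) s ?_ ?_ F hF _ hemb fun u =>
      Finset.mem_image.2 ⟨u, mem_univ _, rfl⟩
    · rw [Finset.card_image_of_injective _ hinj', Finset.card_univ]
      exact Fintype.one_lt_card_iff_nontrivial.2 hnt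
    · intro p hp q hq hpq
      obtain ⟨u, _, rfl⟩ := Finset.mem_image.1 hp
      obtain ⟨v, _, rfl⟩ := Finset.mem_image.1 hq
      have huv : u ≠ v := fun h => hpq (by rw [h])
      obtain ⟨_, s', h1, h2, h3⟩ := hE u v huv
      refine Q.loc _ s' s ?_ h3
      intro w hw
      simp only [Finset.mem_insert, Finset.mem_singleton] at hw
      rcases hw with rfl | rfl
      · rw [h1, hs]
      · rw [h2, hs]
  · obtain ⟨b, s, hs, c, hc⟩ := hQ fun F => χ (F.map toLex.toEmbedding)
    refine ⟨lexEmb b.1 s, ?_, c, fun a ha => ?_⟩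
    · intro x hx
      have h1 : Clq G (lexEmb b.1 s ∘ x) := by
        intro i j hij
        have hne : b.1 (x i) ≠ b.1 (x j) := fun h => hij (hx.injective (b.1.injective h))
        refine ⟨hne, s, rfl, rfl, ?_⟩
        have h2 : Q.S {b.1 (x i), b.1 (x j)} s := by
          rw [hs]
          · exact Finset.card_pair hne
          · intro v hv
            simp only [Finset.mem_insert, Finset.mem_singleton] at hv
            rcases hv with rfl | rfl <;> exact mem_img.2 ⟨_, rfl⟩
        exact h2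
      rw [c2 _ ((lexEmb b.1 s).injective.comp hx.injective) h1]
      exact b.2 x hx
    · rw [img_lexEmb]
      exact hc _ ⟨a, ha, rfl⟩

end Pool.Agent.KS6_38.HG
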